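import Pool.Agent.H77.PUC.FCx

/-! # PUC, module GAP: the functions `G_k` are approximable -/

universe u

namespace PUC

open Polynomial Filter Topology Metric

section
variable {K Ω : Type u} [NontriviallyNormedField K] [IsUltrametricDist K] [Field Ω] [Algebra K Ω]

theorem GAP_hh {A : Set (Place K Ω)} {η : ℝ} (hη : 0 < η) (hη1 : η ≤ 1) {G G' : Place K Ω → K}
    (h : FCon A η G) (h' : FCon A η G') (hb : ∀ P ∈ A, ‖G P‖ ≤ 1 ∧ ‖G' P‖ ≤ 1) (n : ℕ) :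
    FCon A η (fun P => hh n (G P) (G' P)) := by
  have h1 := FCx_sum (A := A) (η := η) hη.le
    (fun (i : Fin (n + 1)) P => G P ^ (i : ℕ) * G' P ^ (n - (i : ℕ))) (fun i => by
      refine FCx_mul hη hη1 (FCx_pow hη hη1 _ h fun P hP => (hb P hP).1)
        (FCx_pow hη hη1 _ h' fun P hP => (hb P hP).2) fun P hP => ⟨?_, ?_⟩
      · rw [norm_pow]
        exact pow_le_one₀ (norm_nonneg _) (hb P hP).1
      · rw [norm_pow]
        exact pow_le_one₀ (norm_nonneg _) (hb P hP).2)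
  refine FCx_congr (fun P _ => ?_) h1
  unfold hh
  rw [Finset.sum_range]

theorem GAP_norm {a b : K} {M : ℝ} (hM : M ≤ 1) (ha : ‖a‖ ≤ 1) (hab : ‖a - b‖ ≤ M) : ‖b‖ ≤ 1 := by
  have e : b = a - (a - b) := by ring
  rw [e]
  exact (norm_sub_le_max' _ _).trans (max_le ha (hab.trans hM))

end

theorem sGap (hCha : SCha.{u}) (hCov : SCov.{u}) (hQuo : SQuo.{u}) (hPza : SPza.{u})
    (hPzi : SPzi.{u}) (hPzc : SPzc.{u}) (hItg : SItg.{u}) (hCrd : SCrd.{u}) : SGap.{u} := by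
  classical
  intro K Ω E _ _ _ _ _ _ g k s x y hg hk hs hsm0 hsmI hx heq Φ1 Φ2 hx1 hy1 hw1 hx2 hy2 hw2 M hM0
    hM1 hcl
  have hη : 0 < M ^ 2 := by positivity
  have hηlt : M ^ 2 < 1 := by nlinarith
  have hη1 : M ^ 2 ≤ 1 := hηlt.le
  have hxi1 : AnF Φ1 x⁻¹ := by
    intro ε hε
    obtain ⟨n, T, g, h1, h2⟩ := hx1 ε hε
    exact ⟨n, T, g, h1, fun i => (h2 i).symm.imp id (by rw [inv_inv]; exact id)⟩
  have hxi2 : AnF Φ2 x⁻¹ := by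
    intro ε hε
    obtain ⟨n, T, g, h1, h2⟩ := hx2 ε hε
    exact ⟨n, T, g, h1, fun i => (h2 i).symm.imp id (by rw [inv_inv]; exact id)⟩
  -- pointwise facts in the affine chart
  have hA : ∀ P : Place K Ω, x ∈ (Φ1 P).ring → ‖(Φ1 P).val x‖ ≤ 1 →
      x ∈ (Φ2 P).ring ∧ y ∈ (Φ1 P).ring ∧ y ∈ (Φ2 P).ring ∧ ‖(Φ2 P).val x‖ ≤ 1 ∧
      ‖(Φ1 P).val y‖ ≤ 1 ∧ ‖(Φ2 P).val y‖ ≤ 1 ∧ ‖(Φ1 P).val x - (Φ2 P).val x‖ ≤ M ∧
      ‖(Φ1 P).val y - (Φ2 P).val y‖ ≤ M ∧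
      (Φ1 P).val y ^ 2 + (Φ1 P).val y = (Φ1 P).val x ^ (2 * g + 1) + s * (Φ1 P).val x ∧
      (Φ2 P).val y ^ 2 + (Φ2 P).val y = (Φ2 P).val x ^ (2 * g + 1) + s * (Φ2 P).val x := by
    intro P h1 h2
    obtain ⟨h3, h4, h5⟩ := (hcl P).1 h1 h2
    obtain ⟨a1, a2⟩ := (hCrd K E g s x y hx heq (Φ1 P)).1 h1
    obtain ⟨b1, b2⟩ := (hCrd K E g s x y hx heq (Φ2 P)).1 h3
    have h6 := GAP_norm hM1.le h2 h4
    exact ⟨h3, a1, b1, h6, (hItg K g s hs).1 _ _ h2 a2, (hItg K g s hs).1 _ _ h6 b2, h4, h5,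
      a2, b2⟩
  -- pointwise facts in the chart at infinity
  have hB : ∀ P : Place K Ω, x⁻¹ ∈ (Φ1 P).ring → ‖(Φ1 P).val x⁻¹‖ ≤ 1 →
      x⁻¹ ∈ (Φ2 P).ring ∧ y / x ^ (g + 1) ∈ (Φ1 P).ring ∧ y / x ^ (g + 1) ∈ (Φ2 P).ring ∧
      ‖(Φ2 P).val x⁻¹‖ ≤ 1 ∧ ‖(Φ1 P).val (y / x ^ (g + 1))‖ ≤ 1 ∧
      ‖(Φ2 P).val (y / x ^ (g + 1))‖ ≤ 1 ∧ ‖(Φ1 P).val x⁻¹ - (Φ2 P).val x⁻¹‖ ≤ M ∧
      ‖(Φ1 P).val (y / x ^ (g + 1)) - (Φ2 P).val (y / x ^ (g + 1))‖ ≤ M ∧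
      (Φ1 P).val (y / x ^ (g + 1)) ^ 2 +
        (Φ1 P).val x⁻¹ ^ (g + 1) * (Φ1 P).val (y / x ^ (g + 1)) =
        (Φ1 P).val x⁻¹ + s * (Φ1 P).val x⁻¹ ^ (2 * g + 1) ∧
      (Φ2 P).val (y / x ^ (g + 1)) ^ 2 +
        (Φ2 P).val x⁻¹ ^ (g + 1) * (Φ2 P).val (y / x ^ (g + 1)) =
        (Φ2 P).val x⁻¹ + s * (Φ2 P).val x⁻¹ ^ (2 * g + 1) := by
    intro P h1 h2
    obtain ⟨h3, h4, h5⟩ := (hcl P).2 h1 h2
    obtain ⟨a1, a2⟩ := (hCrd K E g s x y hx heq (Φ1 P)).2.1 h1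
    obtain ⟨b1, b2⟩ := (hCrd K E g s x y hx heq (Φ2 P)).2.1 h3
    have h6 := GAP_norm hM1.le h2 h4
    exact ⟨h3, a1, b1, h6, (hItg K g s hs).2 _ _ h2 a2, (hItg K g s hs).2 _ _ h6 b2, h4, h5,
      a2, b2⟩
  have hdl0 : ∀ P : Place K Ω, x ∈ (Φ1 P).ring → ‖(Φ1 P).val x‖ ≤ 1 →
      (Φ1 P).val x - (Φ2 P).val x = ((Φ1 P).val y + (Φ2 P).val y + 1) *
        dl0 g s ((Φ1 P).val x) ((Φ1 P).val y) ((Φ2 P).val x) ((Φ2 P).val y) ∧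
      (Φ1 P).val y - (Φ2 P).val y = (hh (2 * g) ((Φ1 P).val x) ((Φ2 P).val x) + s) *
        dl0 g s ((Φ1 P).val x) ((Φ1 P).val y) ((Φ2 P).val x) ((Φ2 P).val y) ∧
      ‖dl0 g s ((Φ1 P).val x) ((Φ1 P).val y) ((Φ2 P).val x) ((Φ2 P).val y)‖ ≤ M ∧
      ‖(Φ1 P).val y + (Φ2 P).val y + 1‖ ≤ 1 ∧
      ‖hh (2 * g) ((Φ1 P).val x) ((Φ2 P).val x) + s‖ ≤ 1 ∧
      (‖(Φ1 P).val y + (Φ2 P).val y + 1‖ = 1 ∨
        ‖hh (2 * g) ((Φ1 P).val x) ((Φ2 P).val x) + s‖ = 1) := by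
    intro P h1 h2
    obtain ⟨c1, c2, c3, c4, c5, c6, c7, c8, c9, c10⟩ := hA P h1 h2
    obtain ⟨d1, d2, d3, d4, d5, d6⟩ := hPza K g s _ _ _ _ hs hsm0 h2 c5 c4 c6 c9 c10
      (c7.trans_lt hM1) (c8.trans_lt hM1)
    exact ⟨d1, d2, by rw [d3]; exact max_le c7 c8, d4, d5, d6⟩
  have hdli : ∀ P : Place K Ω, x⁻¹ ∈ (Φ1 P).ring → ‖(Φ1 P).val x⁻¹‖ ≤ 1 →
      (Φ1 P).val x⁻¹ - (Φ2 P).val x⁻¹ = ((Φ1 P).val (y / x ^ (g + 1)) +
        (Φ2 P).val (y / x ^ (g + 1)) + (Φ1 P).val x⁻¹ ^ (g + 1)) *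
        dli g s ((Φ1 P).val x⁻¹) ((Φ1 P).val (y / x ^ (g + 1))) ((Φ2 P).val x⁻¹)
          ((Φ2 P).val (y / x ^ (g + 1))) ∧
      (Φ1 P).val (y / x ^ (g + 1)) - (Φ2 P).val (y / x ^ (g + 1)) =
        (1 + s * hh (2 * g) ((Φ1 P).val x⁻¹) ((Φ2 P).val x⁻¹) -
          (Φ2 P).val (y / x ^ (g + 1)) * hh g ((Φ1 P).val x⁻¹) ((Φ2 P).val x⁻¹)) *
        dli g s ((Φ1 P).val x⁻¹) ((Φ1 P).val (y / x ^ (g + 1))) ((Φ2 P).val x⁻¹)
          ((Φ2 P).val (y / x ^ (g + 1))) ∧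
      ‖dli g s ((Φ1 P).val x⁻¹) ((Φ1 P).val (y / x ^ (g + 1))) ((Φ2 P).val x⁻¹)
          ((Φ2 P).val (y / x ^ (g + 1)))‖ ≤ M ∧
      ‖(Φ1 P).val (y / x ^ (g + 1)) + (Φ2 P).val (y / x ^ (g + 1)) +
        (Φ1 P).val x⁻¹ ^ (g + 1)‖ ≤ 1 ∧
      ‖1 + s * hh (2 * g) ((Φ1 P).val x⁻¹) ((Φ2 P).val x⁻¹) -
          (Φ2 P).val (y / x ^ (g + 1)) * hh g ((Φ1 P).val x⁻¹) ((Φ2 P).val x⁻¹)‖ ≤ 1 ∧
      (‖(Φ1 P).val (y / x ^ (g + 1)) + (Φ2 P).val (y / x ^ (g + 1)) +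
        (Φ1 P).val x⁻¹ ^ (g + 1)‖ = 1 ∨
        ‖1 + s * hh (2 * g) ((Φ1 P).val x⁻¹) ((Φ2 P).val x⁻¹) -
          (Φ2 P).val (y / x ^ (g + 1)) * hh g ((Φ1 P).val x⁻¹) ((Φ2 P).val x⁻¹)‖ = 1) := by
    intro P h1 h2
    obtain ⟨c1, c2, c3, c4, c5, c6, c7, c8, c9, c10⟩ := hB P h1 h2
    obtain ⟨d1, d2, d3, d4, d5, d6⟩ := hPzi K g s _ _ _ _ (by omega) hs hsmI h2 c5 c4 c6 c9 c10
      (c7.trans_lt hM1) (c8.trans_lt hM1)
    exact ⟨d1, d2, by rw [d3]; exact max_le c7 c8, d4, d5, d6⟩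
  have hnotA : ∀ P : Place K Ω, ¬ (x ∈ (Φ1 P).ring ∧ ‖(Φ1 P).val x‖ ≤ 1) →
      x⁻¹ ∈ (Φ1 P).ring ∧ ‖(Φ1 P).val x⁻¹‖ ≤ 1 := by
    intro P h
    by_cases h1 : x ∈ (Φ1 P).ring
    · have h2 : 1 < ‖(Φ1 P).val x‖ := not_le.1 fun h2 => h ⟨h1, h2⟩
      have h3 : (Φ1 P).val x ≠ 0 := by
        intro h4
        rw [h4, norm_zero] at h2
        linarith
      refine ⟨(Φ1 P).inv_mem_of_val h1 h3, ?_⟩
      rw [(Φ1 P).val_inv h1 h3, norm_inv]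
      exact inv_le_one_of_one_le₀ h2.le
    · refine ⟨(Φ1 P).inv_mem_of_not_mem h1, ?_⟩
      rw [(Φ1 P).val_inv_of_not_mem h1, norm_zero]
      exact zero_le_one
  refine ⟨?_, ?_⟩
  · obtain ⟨n, T, hT1, hT2⟩ := hCov K Ω E Φ1 x hx hx1
    refine FCx_pieces T (fun P _ => hT1 P) fun i => ?_
    rw [Set.univ_inter]
    rcases hT2 i with h | h
    · -- affine piece
      have fx1 : FCon (Dom K (T i)) (M ^ 2) (fun P => (Φ1 P).val x) :=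
        hCha K Ω E Φ1 x (M ^ 2) hη hx1 _ h
      have fy1 : FCon (Dom K (T i)) (M ^ 2) (fun P => (Φ1 P).val y) :=
        hCha K Ω E Φ1 y (M ^ 2) hη hy1 _ fun P hP => by
          obtain ⟨c1, c2, c3, c4, c5, c6, -⟩ := hA P (h P hP).1 (h P hP).2
          exact ⟨c2, c5⟩
      have fx2 : FCon (Dom K (T i)) (M ^ 2) (fun P => (Φ2 P).val x) :=
        hCha K Ω E Φ2 x (M ^ 2) hη hx2 _ fun P hP => by
          obtain ⟨c1, c2, c3, c4, c5, c6, -⟩ := hA P (h P hP).1 (h P hP).2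
          exact ⟨c1, c4⟩
      have fy2 : FCon (Dom K (T i)) (M ^ 2) (fun P => (Φ2 P).val y) :=
        hCha K Ω E Φ2 y (M ^ 2) hη hy2 _ fun P hP => by
          obtain ⟨c1, c2, c3, c4, c5, c6, -⟩ := hA P (h P hP).1 (h P hP).2
          exact ⟨c3, c6⟩
      have fd := hQuo K Ω (Dom K (T i)) (M ^ 2) hη hηlt _ _ _ _
        (fun P => dl0 g s ((Φ1 P).val x) ((Φ1 P).val y) ((Φ2 P).val x) ((Φ2 P).val y))
        (fun P hP => by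
          obtain ⟨d1, d2, d3, d4, d5, d6⟩ := hdl0 P (h P hP).1 (h P hP).2
          exact ⟨d1, d2, d4, d5, d3.trans hM1.le, d6⟩)
        (FCx_sub fx1 fx2) (FCx_add (FCx_add fy1 fy2) (FCx_const _ hη.le 1)) (FCx_sub fy1 fy2)
        (FCx_add (GAP_hh hη hη1 fx1 fx2 (fun P hP => by
          obtain ⟨c1, c2, c3, c4, c5, c6, -⟩ := hA P (h P hP).1 (h P hP).2
          exact ⟨(h P hP).2, c4⟩) (2 * g)) (FCx_const _ hη.le s))
      have fm := FCx_mul hη hη1 (FCx_pow hη hη1 k fx1 fun P hP => (h P hP).2) fd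
        (fun P hP => ⟨by
          rw [norm_pow]
          exact pow_le_one₀ (norm_nonneg _) (h P hP).2,
          (hdl0 P (h P hP).1 (h P hP).2).2.2.1.trans hM1.le⟩)
      refine FCx_congr (fun P hP => ?_) fm
      unfold GG
      rw [if_pos (h P hP)]
    · -- piece at infinity
      have fx1 : FCon (Dom K (T i)) (M ^ 2) (fun P => (Φ1 P).val x⁻¹) :=
        hCha K Ω E Φ1 x⁻¹ (M ^ 2) hη hxi1 _ h
      have fy1 : FCon (Dom K (T i)) (M ^ 2) (fun P => (Φ1 P).val (y / x ^ (g + 1))) :=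
        hCha K Ω E Φ1 _ (M ^ 2) hη hw1 _ fun P hP => by
          obtain ⟨c1, c2, c3, c4, c5, c6, -⟩ := hB P (h P hP).1 (h P hP).2
          exact ⟨c2, c5⟩
      have fx2 : FCon (Dom K (T i)) (M ^ 2) (fun P => (Φ2 P).val x⁻¹) :=
        hCha K Ω E Φ2 x⁻¹ (M ^ 2) hη hxi2 _ fun P hP => by
          obtain ⟨c1, c2, c3, c4, c5, c6, -⟩ := hB P (h P hP).1 (h P hP).2
          exact ⟨c1, c4⟩
      have fy2 : FCon (Dom K (T i)) (M ^ 2) (fun P => (Φ2 P).val (y / x ^ (g + 1))) :=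
        hCha K Ω E Φ2 _ (M ^ 2) hη hw2 _ fun P hP => by
          obtain ⟨c1, c2, c3, c4, c5, c6, -⟩ := hB P (h P hP).1 (h P hP).2
          exact ⟨c3, c6⟩
      have hbx : ∀ P ∈ Dom K (T i), ‖(Φ1 P).val x⁻¹‖ ≤ 1 ∧ ‖(Φ2 P).val x⁻¹‖ ≤ 1 := by
        intro P hP
        obtain ⟨c1, c2, c3, c4, c5, c6, -⟩ := hB P (h P hP).1 (h P hP).2
        exact ⟨(h P hP).2, c4⟩
      have hhn : ∀ (n : ℕ) (a b : K), ‖a‖ ≤ 1 → ‖b‖ ≤ 1 → ‖hh n a b‖ ≤ 1 := by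
        intro n a b ha hb
        unfold hh
        refine IsUltrametricDist.norm_sum_le_of_forall_le_of_nonneg zero_le_one fun j _ => ?_
        rw [norm_mul, norm_pow, norm_pow]
        exact mul_le_one₀ (pow_le_one₀ (norm_nonneg _) ha) (by positivity)
          (pow_le_one₀ (norm_nonneg _) hb)
      have fh1 := GAP_hh hη hη1 fx1 fx2 hbx (2 * g)
      have fh2 := GAP_hh hη hη1 fx1 fx2 hbx g
      have fd := hQuo K Ω (Dom K (T i)) (M ^ 2) hη hηlt _ _ _ _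
        (fun P => dli g s ((Φ1 P).val x⁻¹) ((Φ1 P).val (y / x ^ (g + 1))) ((Φ2 P).val x⁻¹)
          ((Φ2 P).val (y / x ^ (g + 1))))
        (fun P hP => by
          obtain ⟨d1, d2, d3, d4, d5, d6⟩ := hdli P (h P hP).1 (h P hP).2
          exact ⟨d1, d2, d4, d5, d3.trans hM1.le, d6⟩)
        (FCx_sub fx1 fx2)
        (FCx_add (FCx_add fy1 fy2) (FCx_pow hη hη1 (g + 1) fx1 fun P hP => (hbx P hP).1))
        (FCx_sub fy1 fy2)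
        (FCx_sub (FCx_add (FCx_const _ hη.le 1)
          (FCx_mul hη hη1 (FCx_const _ hη.le s) fh1 fun P hP =>
            ⟨hs, hhn _ _ _ (hbx P hP).1 (hbx P hP).2⟩))
          (FCx_mul hη hη1 fy2 fh2 fun P hP => by
            obtain ⟨c1, c2, c3, c4, c5, c6, -⟩ := hB P (h P hP).1 (h P hP).2
            exact ⟨c6, hhn _ _ _ (hbx P hP).1 (hbx P hP).2⟩))
      have fm := FCx_neg (FCx_mul hη hη1
        (FCx_pow hη hη1 (g - 1 - k) fx1 fun P hP => (h P hP).2) fd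
        (fun P hP => ⟨by
          rw [norm_pow]
          exact pow_le_one₀ (norm_nonneg _) (h P hP).2,
          (hdli P (h P hP).1 (h P hP).2).2.2.1.trans hM1.le⟩))
      refine FCx_close fm fun P hP => ?_
      by_cases hAP : x ∈ (Φ1 P).ring ∧ ‖(Φ1 P).val x‖ ≤ 1
      · obtain ⟨c1, c2, c3, c4, c5, c6, c7, c8, c9, c10⟩ := hA P hAP.1 hAP.2
        obtain ⟨b1, -⟩ := hB P (h P hP).1 (h P hP).2
        obtain ⟨e1, e2, e3⟩ := (hCrd K E g s x y hx heq (Φ1 P)).2.2.1 hAP.1 (h P hP).1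
        obtain ⟨e4, e5, e6⟩ := (hCrd K E g s x y hx heq (Φ2 P)).2.2.1 c1 b1
        have n1 : ‖(Φ1 P).val x‖ = 1 := by
          refine le_antisymm hAP.2 ?_
          have h1 := (h P hP).2
          rw [e2, norm_inv] at h1
          have h2 : 0 < ‖(Φ1 P).val x‖ := norm_pos_iff.2 e1
          rwa [inv_le_one₀ h2] at h1
        have n2 : ‖(Φ2 P).val x‖ = 1 := by
          refine le_antisymm c4 ?_
          have h1 := (hbx P hP).2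
          rw [e5, norm_inv] at h1
          have h2 : 0 < ‖(Φ2 P).val x‖ := norm_pos_iff.2 e4
          rwa [inv_le_one₀ h2] at h1
        obtain ⟨-, f2⟩ := hPzc K g s _ _ _ _ (by omega) hs hsm0 hsmI n1 c5 n2 c6 c9 c10
          (c7.trans_lt hM1) (c8.trans_lt hM1)
        unfold GG
        rw [if_pos hAP, e2, e3, e5, e6]
        set X := (Φ1 P).val x with hX
        set Y := dl0 g s X ((Φ1 P).val y) ((Φ2 P).val x) ((Φ2 P).val y) with hY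
        set Z := dli g s X⁻¹ ((Φ1 P).val y / X ^ (g + 1)) ((Φ2 P).val x)⁻¹
          ((Φ2 P).val y / (Φ2 P).val x ^ (g + 1)) with hZ
        have hX0 : X ≠ 0 := e1
        have hpow : X ^ (g - 1) = X ^ (g - 1 - k) * X ^ k := by
          rw [← pow_add]
          congr 1
          omega
        have e : -(X⁻¹ ^ (g - 1 - k) * Z) - X ^ k * Y =
            -(X⁻¹ ^ (g - 1 - k) * (Z + X ^ (g - 1) * Y)) := by
          rw [hpow, inv_pow]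
          field_simp
          ring
        rw [e, norm_neg, norm_mul, norm_pow, norm_inv, n1, inv_one, one_pow, one_mul]
        refine f2.trans ?_
        exact pow_le_pow_left₀ (le_max_of_le_left (norm_nonneg _)) (max_le c7 c8) 2
      · unfold GG
        rw [if_neg hAP, sub_self, norm_zero]
        exact hη.le
  · intro P
    unfold GG
    by_cases hAP : x ∈ (Φ1 P).ring ∧ ‖(Φ1 P).val x‖ ≤ 1
    · rw [if_pos hAP, norm_mul, norm_pow]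
      have h1 : ‖(Φ1 P).val x‖ ^ k ≤ 1 := pow_le_one₀ (norm_nonneg _) hAP.2
      have h2 := (hdl0 P hAP.1 hAP.2).2.2.1
      calc _ ≤ 1 * M := mul_le_mul h1 h2 (norm_nonneg _) zero_le_one
        _ = M := one_mul M
    · obtain ⟨h3, h4⟩ := hnotA P hAP
      rw [if_neg hAP, norm_neg, norm_mul, norm_pow]
      have h1 : ‖(Φ1 P).val x⁻¹‖ ^ (g - 1 - k) ≤ 1 := pow_le_one₀ (norm_nonneg _) h4
      have h2 := (hdli P h3 h4).2.2.1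
      calc _ ≤ 1 * M := mul_le_mul h1 h2 (norm_nonneg _) zero_le_one
        _ = M := one_mul M

end PUC
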