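import Pool.Agent.H77.PUC.StmtsE
import Pool.Agent.H77.PUC.Util

/-! # PUC, module GEN: uniformizers at the places of the curve -/

universe u v

namespace PUC

open Polynomial

section
variable {K : Type u} {F : Type v} [Field K] [Field F] [Algebra K F] (P : Place K F)

/-- the local ring at `P` of a subalgebra -/
def GEN_L (A : Subalgebra K F) (f : F) : Prop :=
  ∃ a ∈ A, ∃ e ∈ A, P.val e ≠ 0 ∧ f = a / e

variable {P} {A : Subalgebra K F}

theorem GEN_ne {e : F} (h : P.val e ≠ 0) : e ≠ 0 := by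
  rintro rfl
  exact h P.val_zero

theorem GEN_L_of_mem {a : F} (ha : a ∈ A) : GEN_L P A a :=
  ⟨a, ha, 1, A.one_mem, by rw [P.val_one]; exact one_ne_zero, by rw [div_one]⟩

theorem GEN_L_add (hA : ∀ a ∈ A, a ∈ P.ring) {f g : F} (hf : GEN_L P A f) (hg : GEN_L P A g) :
    GEN_L P A (f + g) := by
  obtain ⟨a, ha, e, he, he0, rfl⟩ := hf
  obtain ⟨b, hb, d, hd, hd0, rfl⟩ := hg
  refine ⟨a * d + e * b, A.add_mem (A.mul_mem ha hd) (A.mul_mem he hb), e * d, A.mul_mem he hd,
    ?_, ?_⟩
  · rw [P.val_mul (hA e he) (hA d hd)]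
    exact mul_ne_zero he0 hd0
  · rw [div_add_div _ _ (GEN_ne he0) (GEN_ne hd0)]

theorem GEN_L_mul (hA : ∀ a ∈ A, a ∈ P.ring) {f g : F} (hf : GEN_L P A f) (hg : GEN_L P A g) :
    GEN_L P A (f * g) := by
  obtain ⟨a, ha, e, he, he0, rfl⟩ := hf
  obtain ⟨b, hb, d, hd, hd0, rfl⟩ := hg
  refine ⟨a * b, A.mul_mem ha hb, e * d, A.mul_mem he hd, ?_, ?_⟩
  · rw [P.val_mul (hA e he) (hA d hd)]
    exact mul_ne_zero he0 hd0
  · rw [div_mul_div_comm]

theorem GEN_L_ring (hA : ∀ a ∈ A, a ∈ P.ring) {f : F} (hf : GEN_L P A f) : f ∈ P.ring := by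
  obtain ⟨a, ha, e, he, he0, rfl⟩ := hf
  rw [div_eq_mul_inv]
  exact P.ring.mul_mem _ _ (hA a ha) (P.inv_mem_of_val (hA e he) he0)

theorem GEN_L_div {x y t : F} (hA : ∀ a ∈ Algebra.adjoin K {x, y}, a ∈ P.ring)
    (hx : GEN_L P (Algebra.adjoin K {x, y}) ((x - algebraMap K F (P.val x)) / t))
    (hy : GEN_L P (Algebra.adjoin K {x, y}) ((y - algebraMap K F (P.val y)) / t))
    {a : F} (ha : a ∈ Algebra.adjoin K {x, y}) :
    GEN_L P (Algebra.adjoin K {x, y}) ((a - algebraMap K F (P.val a)) / t) := by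
  induction ha using Algebra.adjoin_induction with
  | mem b hb =>
    rcases hb with rfl | hb
    · exact hx
    · rw [Set.mem_singleton_iff] at hb
      subst hb
      exact hy
  | algebraMap c =>
    rw [P.val_algebraMap, sub_self, zero_div]
    exact GEN_L_of_mem (Subalgebra.zero_mem _)
  | add a b ha hb iha ihb =>
    have e : (a + b - algebraMap K F (P.val (a + b))) / t =
        (a - algebraMap K F (P.val a)) / t + (b - algebraMap K F (P.val b)) / t := by
      rw [P.val_add (hA a ha) (hA b hb), map_add]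
      ring
    rw [e]
    exact GEN_L_add hA iha ihb
  | mul a b ha hb iha ihb =>
    have e : (a * b - algebraMap K F (P.val (a * b))) / t =
        (a - algebraMap K F (P.val a)) / t * b +
          algebraMap K F (P.val a) * ((b - algebraMap K F (P.val b)) / t) := by
      rw [P.val_mul (hA a ha) (hA b hb), map_mul]
      ring
    rw [e]
    exact GEN_L_add hA (GEN_L_mul hA iha (GEN_L_of_mem hb))
      (GEN_L_mul hA (GEN_L_of_mem (Subalgebra.algebraMap_mem _ _)) ihb)

theorem GEN_core {x y t : F} (hgen : IntermediateField.adjoin K {x, y} = ⊤)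
    (hxP : x ∈ P.ring) (hyP : y ∈ P.ring) (ht : t ∈ P.ring.nonunits) (ht0 : t ≠ 0)
    (hx : GEN_L P (Algebra.adjoin K {x, y}) ((x - algebraMap K F (P.val x)) / t))
    (hy : GEN_L P (Algebra.adjoin K {x, y}) ((y - algebraMap K F (P.val y)) / t))
    (hbdd : ∀ h : F, ∃ n : ℕ, t ^ n * h ∈ P.ring) : IsUnif P t := by
  have hA : ∀ a ∈ Algebra.adjoin K {x, y}, a ∈ P.ring := by
    intro a ha
    induction ha using Algebra.adjoin_induction with
    | mem b hb =>
      rcases hb with rfl | hb
      · exact hxP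
      · rw [Set.mem_singleton_iff] at hb
        subst hb
        exact hyP
    | algebraMap c => exact P.alg_mem c
    | add a b ha hb iha ihb => exact P.ring.add_mem _ _ iha ihb
    | mul a b ha hb iha ihb => exact P.ring.mul_mem _ _ iha ihb
  have htinv : t⁻¹ ∉ P.ring := by
    rw [ValuationSubring.mem_nonunits_iff_or] at ht
    exact ht.resolve_left ht0
  have htP : t ∈ P.ring := P.nonunits_mem ht
  have hdiv : ∀ f : F, GEN_L P (Algebra.adjoin K {x, y}) f → P.val f = 0 →
      GEN_L P (Algebra.adjoin K {x, y}) (f / t) := by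
    rintro f ⟨a, ha, e, he, he0, rfl⟩ hf
    have h1 : P.val a = 0 := by
      have h2 : a = a / e * e := (div_mul_cancel₀ a (GEN_ne he0)).symm
      have h3 : a / e ∈ P.ring := GEN_L_ring hA ⟨a, ha, e, he, he0, rfl⟩
      rw [h2, P.val_mul h3 (hA e he), hf, zero_mul]
    have h2 := GEN_L_div hA hx hy ha
    rw [h1, map_zero, sub_zero] at h2
    have h3 : a / e / t = a / t * (1 / e) := by ring
    rw [h3]
    exact GEN_L_mul hA h2 ⟨1, Subalgebra.one_mem _, e, he, he0, rfl⟩
  have hfac : ∀ q ∈ Algebra.adjoin K {x, y}, q ≠ 0 → ∃ (n : ℕ) (v : F), v ∈ P.ring ∧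
      P.val v ≠ 0 ∧ q = t ^ n * v := by
    intro q hq hq0
    by_contra hcon
    push Not at hcon
    have hall : ∀ n : ℕ, GEN_L P (Algebra.adjoin K {x, y}) (q / t ^ n) := by
      intro n
      induction n with
      | zero => rw [pow_zero, div_one]; exact GEN_L_of_mem hq
      | succ n ih =>
        have h1 : P.val (q / t ^ n) = 0 := by
          by_contra h2
          exact hcon n (q / t ^ n) (GEN_L_ring hA ih) h2
            (mul_div_cancel₀ q (pow_ne_zero n ht0)).symm
        have h2 := hdiv _ ih h1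
        rwa [div_div, ← pow_succ] at h2
    obtain ⟨N, hN⟩ := hbdd q⁻¹
    have h1 := P.ring.mul_mem _ _ hN (GEN_L_ring hA (hall (N + 1)))
    have h2 : t ^ N * q⁻¹ * (q / t ^ (N + 1)) = t⁻¹ := by
      field_simp
      rw [pow_succ]
    rw [h2] at h1
    exact htinv h1
  refine ⟨ht, fun f hf => ?_⟩
  by_cases hf0 : f = 0
  · exact ⟨0, P.ring.zero_mem, by rw [hf0, zero_mul]⟩
  have hfinv : f⁻¹ ∉ P.ring := by
    rw [ValuationSubring.mem_nonunits_iff_or] at hf
    exact hf.resolve_left hf0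
  have hmem : f ∈ IntermediateField.adjoin K {x, y} := by rw [hgen]; exact trivial
  rw [IntermediateField.mem_adjoin_iff_div] at hmem
  obtain ⟨r, hr, s, hs, rfl⟩ := hmem
  have hr0 : r ≠ 0 := fun h => hf0 (by rw [h, zero_div])
  have hs0 : s ≠ 0 := fun h => hf0 (by rw [h, div_zero])
  obtain ⟨n, a, ha, ha0, rfl⟩ := hfac r hr hr0
  obtain ⟨m, b, hb, hb0, rfl⟩ := hfac s hs hs0
  have ha0' := GEN_ne ha0
  have hb0' := GEN_ne hb0
  rcases le_or_gt n m with hnm | hnm
  · exfalso
    apply hfinv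
    obtain ⟨k, rfl⟩ := Nat.exists_eq_add_of_le hnm
    have e : (t ^ n * a / (t ^ (n + k) * b))⁻¹ = t ^ k * b * a⁻¹ := by
      rw [pow_add]
      field_simp
    rw [e]
    exact P.ring.mul_mem _ _ (P.ring.mul_mem _ _ (P.pow_mem htP k) hb) (P.inv_mem_of_val ha ha0)
  · obtain ⟨k, rfl⟩ := Nat.exists_eq_add_of_lt hnm
    refine ⟨t ^ k * a * b⁻¹, P.ring.mul_mem _ _ (P.ring.mul_mem _ _ (P.pow_mem htP k) ha)
      (P.inv_mem_of_val hb hb0), ?_⟩
    rw [pow_add, pow_add]
    field_simp

end

/-- the valuation ring `P.ring[1/t]` -/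
def GEN_V {K : Type u} {F : Type v} [Field K] [Field F] [Algebra K F] (P : Place K F) (t : F)
    (ht : t ∈ P.ring) : ValuationSubring F where
  carrier := {h | ∃ n : ℕ, t ^ n * h ∈ P.ring}
  mul_mem' := by
    rintro a b ⟨n, hn⟩ ⟨m, hm⟩
    refine ⟨n + m, ?_⟩
    have e : t ^ (n + m) * (a * b) = (t ^ n * a) * (t ^ m * b) := by ring
    rw [e]
    exact P.ring.mul_mem _ _ hn hm
  one_mem' := ⟨0, by rw [pow_zero, mul_one]; exact P.ring.one_mem⟩
  add_mem' := by
    rintro a b ⟨n, hn⟩ ⟨m, hm⟩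
    refine ⟨n + m, ?_⟩
    have e : t ^ (n + m) * (a + b) = t ^ m * (t ^ n * a) + t ^ n * (t ^ m * b) := by ring
    rw [e]
    exact P.ring.add_mem _ _ (P.ring.mul_mem _ _ (P.pow_mem ht m) hn)
      (P.ring.mul_mem _ _ (P.pow_mem ht n) hm)
  zero_mem' := ⟨0, by rw [mul_zero]; exact P.ring.zero_mem⟩
  neg_mem' := by
    rintro a ⟨n, hn⟩
    refine ⟨n, ?_⟩
    rw [mul_neg]
    exact P.ring.neg_mem _ hn
  mem_or_inv_mem' := by
    intro a
    rcases P.ring.mem_or_inv_mem a with h | h
    · exact Or.inl ⟨0, by rwa [pow_zero, one_mul]⟩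
    · exact Or.inr ⟨0, by rwa [pow_zero, one_mul]⟩

theorem GEN_bdd {K : Type u} {F : Type v} [Field K] [IsAlgClosed K] [Field F] [Algebra K F]
    (P : Place K F) (t z : F) (ht : t ∈ P.ring) (hz : z ∈ P.ring)
    (halg : Algebra.IsAlgebraic (IntermediateField.adjoin K {z}) F)
    (hn : ∃ n : ℕ, t ^ n * (z - algebraMap K F (P.val z))⁻¹ ∈ P.ring) (h : F) :
    ∃ n : ℕ, t ^ n * h ∈ P.ring := by
  have hmem : ∀ f : F, f ∈ GEN_V P t ht ↔ ∃ n : ℕ, t ^ n * f ∈ P.ring := fun f => Iff.rfl
  have hsub : ∀ f ∈ P.ring, f ∈ GEN_V P t ht := fun f hf =>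
    (hmem f).2 ⟨0, by rwa [pow_zero, one_mul]⟩
  have hlin : ∀ r : K, (z - algebraMap K F r)⁻¹ ∈ GEN_V P t ht := by
    intro r
    by_cases hr : r = P.val z
    · rw [hr]
      exact (hmem _).2 hn
    · apply hsub
      have h1 : z - algebraMap K F r ∈ P.ring := P.ring.toSubring.sub_mem hz (P.alg_mem r)
      apply P.inv_mem_of_val h1
      rw [P.val_sub hz (P.alg_mem r), P.val_algebraMap]
      exact sub_ne_zero.2 (Ne.symm hr)
  have hpol : ∀ (n : ℕ) (Q : K[X]), Q.natDegree = n → Q ≠ 0 →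
      (aeval z Q)⁻¹ ∈ GEN_V P t ht := by
    intro n
    induction n with
    | zero =>
      intro Q hQ hQ0
      rw [Polynomial.natDegree_eq_zero] at hQ
      obtain ⟨c, rfl⟩ := hQ
      rw [aeval_C, ← map_inv₀]
      exact hsub _ (P.alg_mem _)
    | succ n ih =>
      intro Q hQ hQ0
      have hdeg : Q.degree ≠ 0 := by
        intro h0
        have h1 := Polynomial.natDegree_eq_of_degree_eq_some (n := 0) (by rw [h0]; rfl)
        omega
      obtain ⟨r, hr⟩ := IsAlgClosed.exists_root Q hdeg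
      obtain ⟨Q1, rfl⟩ := Polynomial.dvd_iff_isRoot.2 hr
      have hQ1 : Q1 ≠ 0 := right_ne_zero_of_mul hQ0
      have h1 : Q1.natDegree = n := by
        rw [Polynomial.natDegree_mul (Polynomial.X_sub_C_ne_zero r) hQ1,
          Polynomial.natDegree_X_sub_C] at hQ
        omega
      rw [map_mul, map_sub, aeval_X, aeval_C, mul_inv]
      exact (GEN_V P t ht).mul_mem _ _ (hlin r) (ih Q1 h1 hQ1)
  have hK : ∀ f ∈ IntermediateField.adjoin K {z}, f ∈ GEN_V P t ht := by
    intro f hf
    rw [IntermediateField.mem_adjoin_simple_iff] at hf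
    obtain ⟨r, s, rfl⟩ := hf
    by_cases hs : s = 0
    · rw [hs, map_zero, div_zero]
      exact (GEN_V P t ht).zero_mem
    · rw [div_eq_mul_inv]
      exact (GEN_V P t ht).mul_mem _ _ (hsub _ (P.aeval_mem hz r)) (hpol _ s rfl hs)
  let ι : IntermediateField.adjoin K {z} →+* GEN_V P t ht :=
    { toFun := fun f => ⟨f, hK f f.2⟩
      map_one' := rfl
      map_mul' := fun _ _ => rfl
      map_zero' := rfl
      map_add' := fun _ _ => rfl }
  have hint : IsIntegral (GEN_V P t ht) h := by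
    obtain ⟨Q, hQ1, hQ2⟩ := (halg.isAlgebraic h).isIntegral
    refine ⟨Q.map ι, hQ1.map ι, ?_⟩
    rw [Polynomial.eval₂_map]
    exact hQ2
  obtain ⟨y, hy⟩ := IsIntegrallyClosed.isIntegral_iff.1 hint
  rw [← hmem, ← hy]
  exact y.2

/-- the affine curve is smooth -/
theorem GEN_smooth {K : Type u} [Field K] [CharZero K] {g : ℕ} (hg : 1 ≤ g) {s0 a b : K}
    (hs0 : s0 = 0 ∨ s0 = 1) (hab : b ^ 2 + b = a ^ (2 * g + 1) + s0 * a) (hb : 2 * b + 1 = 0) :
    (2 * g + 1 : K) * a ^ (2 * g) + s0 ≠ 0 := by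
  intro h
  have hg1 : (2 * g + 1 : K) ≠ 0 := by exact_mod_cast Nat.succ_ne_zero (2 * g)
  have h1 : 1 + 4 * (a ^ (2 * g + 1) + s0 * a) = 0 := by
    rw [← hab]
    linear_combination (2 * b + 1) * hb
  rcases hs0 with rfl | rfl
  · rw [add_zero] at h
    have h2 : a = 0 := by
      have h3 := (mul_eq_zero.1 h).resolve_left hg1
      exact pow_eq_zero_iff (by omega) |>.1 h3
    rw [h2] at h1
    simp at h1
  · have h2 : (8 * g : K) * a = -(2 * g + 1) := by
      have h3 : a ^ (2 * g + 1) = a ^ (2 * g) * a := pow_succ _ _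
      rw [h3] at h1
      linear_combination (2 * g + 1 : K) * h1 - 4 * a * h
    have h3 : (8 * g : K) ^ (2 * g) * a ^ (2 * g) = (2 * g + 1 : K) ^ (2 * g) := by
      rw [← mul_pow, h2, Even.neg_pow (even_two_mul g)]
    have h4 : (2 * g + 1 : K) ^ (2 * g) * (2 * g + 1) + (8 * g : K) ^ (2 * g) = 0 := by
      linear_combination (8 * g : K) ^ (2 * g) * h - (2 * g + 1 : K) * h3
    have h5 : ((((2 * g + 1) ^ (2 * g) * (2 * g + 1) + (8 * g) ^ (2 * g) : ℕ)) : K) = 0 := by
      push_cast
      exact h4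
    rw [Nat.cast_eq_zero] at h5
    have h6 : 0 < (2 * g + 1) ^ (2 * g) * (2 * g + 1) := by positivity
    omega

theorem sGen (hCrd : SCrd.{u}) (hIca : SIca.{u}) : SGen.{u} := by
  classical
  intro K F _ _ _ _ _ g s0 x y hg hs0 hC P
  obtain ⟨hfin, hfin2⟩ := hIca K F g s0 x y hC
  have hx0 : ∀ c : K, x ≠ algebraMap K F c := by
    rintro c rfl
    exact hC.trans (isAlgebraic_algebraMap c)
  have hxne : x ≠ 0 := by
    have := hx0 0
    rwa [map_zero] at this
  obtain ⟨hc1, hc2, -, -⟩ := hCrd K F g s0 x y hxne hC.eqn P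
  refine ⟨fun hx => ?_, fun hx => ?_⟩
  · obtain ⟨hy, hab⟩ := hc1 hx
    set a := P.val x with ha
    set b := P.val y with hb
    set α := algebraMap K F a with hα
    set β := algebraMap K F b with hβ
    set G : F := ∑ i ∈ Finset.range (2 * g + 1), x ^ i * α ^ (2 * g + 1 - 1 - i) +
      algebraMap K F s0 with hG
    have hab' : β ^ 2 + β = α ^ (2 * g + 1) + algebraMap K F s0 * α := by
      have := congrArg (algebraMap K F) hab
      simpa only [map_add, map_mul, map_pow] using this
    have hrel : (x - α) * G = (y - β) * (y + β + 1) := by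
      have h1 := geom_sum₂_mul x α (2 * g + 1)
      rw [hG]
      linear_combination h1 + hC.eqn.symm - hab'.symm
    have hxA : x ∈ Algebra.adjoin K {x, y} := Algebra.subset_adjoin (by simp)
    have hyA : y ∈ Algebra.adjoin K {x, y} := Algebra.subset_adjoin (by simp)
    have hGA : G ∈ Algebra.adjoin K {x, y} := by
      refine Subalgebra.add_mem _ (Subalgebra.sum_mem _ fun i _ => ?_)
        (Subalgebra.algebraMap_mem _ _)
      exact Subalgebra.mul_mem _ (Subalgebra.pow_mem _ hxA _)
        (Subalgebra.pow_mem _ (Subalgebra.algebraMap_mem _ _) _)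
    have hYA : y + β + 1 ∈ Algebra.adjoin K {x, y} :=
      Subalgebra.add_mem _ (Subalgebra.add_mem _ hyA (Subalgebra.algebraMap_mem _ _))
        (Subalgebra.one_mem _)
    have hterm : ∀ i ∈ Finset.range (2 * g + 1), x ^ i * α ^ (2 * g + 1 - 1 - i) ∈ P.ring :=
      fun i _ => P.ring.mul_mem _ _ (P.pow_mem hx i) (P.pow_mem (P.alg_mem a) _)
    have hGP : G ∈ P.ring := P.ring.add_mem _ _ (P.sum_mem _ _ hterm) (P.alg_mem s0)
    have hGval : P.val G = (2 * g + 1 : K) * a ^ (2 * g) + s0 := by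
      rw [hG, P.val_add (P.sum_mem _ _ hterm) (P.alg_mem s0), P.val_sum _ _ hterm,
        P.val_algebraMap]
      congr 1
      have h1 : ∀ i ∈ Finset.range (2 * g + 1),
          P.val (x ^ i * α ^ (2 * g + 1 - 1 - i)) = a ^ (2 * g) := by
        intro i hi
        rw [P.val_mul (P.pow_mem hx i) (P.pow_mem (P.alg_mem a) _), P.val_pow hx,
          P.val_pow (P.alg_mem a), P.val_algebraMap, ← pow_add]
        congr 1
        have := Finset.mem_range.1 hi
        omega
      rw [Finset.sum_congr rfl h1, Finset.sum_const, Finset.card_range, nsmul_eq_mul]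
      push_cast
      ring
    have hYP : y + β + 1 ∈ P.ring := P.ring.add_mem _ _ (P.ring.add_mem _ _ hy (P.alg_mem b))
      P.ring.one_mem
    have hYval : P.val (y + β + 1) = 2 * b + 1 := by
      rw [P.val_add (P.ring.add_mem _ _ hy (P.alg_mem b)) P.ring.one_mem,
        P.val_add hy (P.alg_mem b), P.val_algebraMap, P.val_one]
      ring
    have hxα : x - α ≠ 0 := sub_ne_zero.2 (hx0 a)
    have halg : Algebra.IsAlgebraic (IntermediateField.adjoin K {x}) F :=
      Algebra.IsAlgebraic.of_finite _ _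
    have hone : GEN_L P (Algebra.adjoin K {x, y}) 1 := GEN_L_of_mem (Subalgebra.one_mem _)
    by_cases h2b : 2 * b + 1 = 0
    · right
      have hsm := GEN_smooth hg hs0 hab h2b
      have hG0 : P.val G ≠ 0 := by rw [hGval]; exact hsm
      have hY : y + β + 1 = y - β := by
        have h1 : algebraMap K F (2 * b + 1) = 0 := by rw [h2b, map_zero]
        rw [map_add, map_mul, map_ofNat, map_one] at h1
        linear_combination h1
      have hyβ : y - β ≠ 0 := by
        intro h1
        rw [h1, zero_mul] at hrel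
        rcases mul_eq_zero.1 hrel with h2 | h2
        · exact hxα h2
        · exact GEN_ne hG0 h2
      refine GEN_core hC.gen hx hy (P.sub_val hy) hyβ ?_ ?_ ?_
      · refine ⟨y + β + 1, hYA, G, hGA, hG0, ?_⟩
        rw [div_eq_div_iff hyβ (GEN_ne hG0)]
        linear_combination hrel
      · rw [div_self hyβ]
        exact hone
      · refine GEN_bdd P (y - β) x (P.nonunits_mem (P.sub_val hy)) hx halg ⟨2, ?_⟩
        have e : (y - β) ^ 2 * (x - algebraMap K F (P.val x))⁻¹ = G := by
          rw [← ha, ← hα, mul_inv_eq_iff_eq_mul₀ hxα]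
          rw [hY] at hrel
          linear_combination -hrel
        rw [e]
        exact hGP
    · left
      have hY0 : P.val (y + β + 1) ≠ 0 := by rw [hYval]; exact h2b
      refine GEN_core hC.gen hx hy (P.sub_val hx) hxα ?_ ?_ ?_
      · rw [div_self hxα]
        exact hone
      · refine ⟨G, hGA, y + β + 1, hYA, hY0, ?_⟩
        rw [div_eq_div_iff hxα (GEN_ne hY0)]
        linear_combination -hrel
      · refine GEN_bdd P (x - α) x (P.nonunits_mem (P.sub_val hx)) hx halg ⟨1, ?_⟩
        rw [pow_one, mul_inv_cancel₀ hxα]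
        exact P.ring.one_mem
  · have huP : x⁻¹ ∈ P.ring := P.inv_mem_of_not_mem hx
    have hu0 : P.val x⁻¹ = 0 := P.val_inv_of_not_mem hx
    obtain ⟨hwP, hw⟩ := hc2 huP
    set u := x⁻¹ with hu
    set w := y / x ^ (g + 1) with hwdef
    have hune : u ≠ 0 := inv_ne_zero hxne
    have hw0 : P.val w = 0 := by
      rw [hu0, zero_pow (by omega), zero_pow (by omega), zero_mul, mul_zero, add_zero,
        add_zero] at hw
      exact pow_eq_zero_iff (by norm_num) |>.1 hw
    have heq : w ^ 2 + u ^ (g + 1) * w = u + algebraMap K F s0 * u ^ (2 * g + 1) := by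
      have h1 := hC.eqn
      rw [hwdef, hu]
      have h2 : x ^ (2 * g + 1) * x = (x ^ (g + 1)) ^ 2 := by rw [← pow_succ, ← pow_mul]; ring_nf
      have h3 : (x ^ (g + 1)) ≠ 0 := pow_ne_zero _ hxne
      have h4 : x ^ (2 * g + 1) ≠ 0 := pow_ne_zero _ hxne
      rw [inv_pow, inv_pow]
      have h5 : (y / x ^ (g + 1)) ^ 2 + (x ^ (g + 1))⁻¹ * (y / x ^ (g + 1)) =
          (y ^ 2 + y) / (x ^ (g + 1)) ^ 2 := by
        field_simp
      have h6 : x⁻¹ + algebraMap K F s0 * (x ^ (2 * g + 1))⁻¹ =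
          (x ^ (2 * g + 1) + algebraMap K F s0 * x) / (x ^ (2 * g + 1) * x) := by
        field_simp
      rw [h5, h6, h1, h2]
    set E : F := 1 + algebraMap K F s0 * u ^ (2 * g) - u ^ g * w with hE
    have huE : u * E = w ^ 2 := by
      rw [hE]
      have h1 : u ^ (2 * g + 1) = u ^ (2 * g) * u := pow_succ _ _
      have h2 : u ^ (g + 1) = u ^ g * u := pow_succ _ _
      rw [h1, h2] at heq
      linear_combination -heq
    have huA : u ∈ Algebra.adjoin K {u, w} := Algebra.subset_adjoin (by simp)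
    have hwA : w ∈ Algebra.adjoin K {u, w} := Algebra.subset_adjoin (by simp)
    have hEA : E ∈ Algebra.adjoin K {u, w} :=
      Subalgebra.sub_mem _ (Subalgebra.add_mem _ (Subalgebra.one_mem _)
        (Subalgebra.mul_mem _ (Subalgebra.algebraMap_mem _ _) (Subalgebra.pow_mem _ huA _)))
        (Subalgebra.mul_mem _ (Subalgebra.pow_mem _ huA _) hwA)
    have hE1 : algebraMap K F s0 * u ^ (2 * g) ∈ P.ring :=
      P.ring.mul_mem _ _ (P.alg_mem _) (P.pow_mem huP _)
    have hE2 : u ^ g * w ∈ P.ring := P.ring.mul_mem _ _ (P.pow_mem huP _) hwP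
    have hEP : E ∈ P.ring :=
      P.ring.toSubring.sub_mem (P.ring.add_mem _ _ P.ring.one_mem hE1) hE2
    have hEval : P.val E = 1 := by
      rw [hE, P.val_sub (P.ring.add_mem _ _ P.ring.one_mem hE1) hE2,
        P.val_add P.ring.one_mem hE1, P.val_mul (P.alg_mem _) (P.pow_mem huP _),
        P.val_mul (P.pow_mem huP _) hwP, P.val_pow huP, hw0, hu0, P.val_one,
        zero_pow (by omega), mul_zero, mul_zero, add_zero, sub_zero]
    have hE0 : P.val E ≠ 0 := by rw [hEval]; exact one_ne_zero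
    have hwne : w ≠ 0 := by
      intro h1
      rw [h1, zero_pow two_ne_zero] at huE
      rcases mul_eq_zero.1 huE with h2 | h2
      · exact hune h2
      · exact GEN_ne hE0 h2
    have hgen : IntermediateField.adjoin K {u, w} = ⊤ := by
      rw [eq_top_iff, ← hC.gen, IntermediateField.adjoin_le_iff]
      have h1 : u ∈ IntermediateField.adjoin K {u, w} :=
        IntermediateField.subset_adjoin K _ (by simp)
      have h2 : w ∈ IntermediateField.adjoin K {u, w} :=
        IntermediateField.subset_adjoin K _ (by simp)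
      have h3 : x ∈ IntermediateField.adjoin K {u, w} := by
        have := (IntermediateField.adjoin K {u, w}).inv_mem h1
        rwa [hu, inv_inv] at this
      intro f hf
      rcases hf with rfl | hf
      · exact h3
      · rw [Set.mem_singleton_iff] at hf
        subst hf
        have h4 : f = w * x ^ (g + 1) := by
          rw [hwdef, div_mul_cancel₀]
          exact pow_ne_zero _ hxne
        rw [h4]
        exact (IntermediateField.adjoin K {u, w}).mul_mem h2
          (pow_mem h3 _)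
    have hutr : Transcendental K u := by
      intro h1
      have h2 := h1.inv
      rw [hu, inv_inv] at h2
      exact hC.trans h2
    have halg : Algebra.IsAlgebraic (IntermediateField.adjoin K {u}) F := by
      have := hfin2 F u hutr
      exact Algebra.IsAlgebraic.of_finite _ _
    have hwn : w ∈ P.ring.nonunits := P.nonunit_of_val_eq_zero hwP hw0
    refine GEN_core hgen huP hwP hwn hwne ?_ ?_ ?_
    · rw [hu0, map_zero, sub_zero]
      refine ⟨w, hwA, E, hEA, hE0, ?_⟩
      rw [div_eq_div_iff hwne (GEN_ne hE0)]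
      linear_combination huE
    · rw [hw0, map_zero, sub_zero, div_self hwne]
      exact GEN_L_of_mem (Subalgebra.one_mem _)
    · refine GEN_bdd P w u hwP huP halg ⟨2, ?_⟩
      have e : w ^ 2 * (u - algebraMap K F (P.val u))⁻¹ = E := by
        rw [hu0, map_zero, sub_zero, mul_inv_eq_iff_eq_mul₀ hune]
        linear_combination -huE
      rw [e]
      exact hEP

end PUC
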