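import Pool.Agent.H77.PUC.StmtsE
import Pool.Agent.H77.PUC.Util

/-! # PUC, module INV: analytic maps to the curve have finite level -/

universe u v w

namespace PUC

open Polynomial Filter Topology

/-- `f` or `f⁻¹` is finite at both places with close values -/
def INV_D {K : Type u} {E : Type v} [NormedField K] [Field E] [Algebra K E] (ε : ℝ) (f : E)
    (Q Q' : Place K E) : Prop :=
  (f ∈ Q.ring ∧ f ∈ Q'.ring ∧ ‖Q.val f - Q'.val f‖ ≤ ε) ∨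
    (f⁻¹ ∈ Q.ring ∧ f⁻¹ ∈ Q'.ring ∧ ‖Q.val f⁻¹ - Q'.val f⁻¹‖ ≤ ε)

theorem INV_D_inv {K : Type u} {E : Type v} [NormedField K] [Field E] [Algebra K E] {ε : ℝ}
    {f : E} {Q Q' : Place K E} (h : INV_D ε f Q Q') : INV_D ε f⁻¹ Q Q' := by
  rcases h with h | h
  · right
    rwa [inv_inv]
  · exact Or.inl h

theorem INV_close {K : Type u} {E : Type v} [NormedField K] [IsUltrametricDist K] [Field E]
    [Algebra K E] {ε : ℝ} (hε0 : 0 ≤ ε) (hε : ε < 1) {f : E} {Q Q' : Place K E}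
    (h : INV_D ε f Q Q') (hf : f ∈ Q.ring) (hn : ‖Q.val f‖ ≤ 1) :
    f ∈ Q'.ring ∧ ‖Q.val f - Q'.val f‖ ≤ ε := by
  by_cases h0 : f = 0
  · subst h0
    refine ⟨Q'.ring.zero_mem, ?_⟩
    rw [Q.val_zero, Q'.val_zero, sub_zero, norm_zero]
    exact hε0
  rcases h with h | ⟨h1, h2, h3⟩
  · exact h.2
  · have h4 := Q.val_mul hf h1
    rw [mul_inv_cancel₀ h0, Q.val_one] at h4
    have h5 := congrArg norm h4
    rw [norm_one, norm_mul] at h5
    have h6 : 1 ≤ ‖Q.val f⁻¹‖ := by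
      by_contra h7
      rw [not_le] at h7
      nlinarith [norm_nonneg (Q.val f), norm_nonneg (Q.val f⁻¹)]
    have h7 : ‖Q.val f⁻¹‖ ≤ ‖Q'.val f⁻¹‖ := by
      by_contra h8
      rw [not_le] at h8
      have e : Q.val f⁻¹ = (Q.val f⁻¹ - Q'.val f⁻¹) + Q'.val f⁻¹ := by ring
      have h9 := IsUltrametricDist.norm_add_le_max (Q.val f⁻¹ - Q'.val f⁻¹) (Q'.val f⁻¹)
      rw [← e] at h9
      rcases le_max_iff.1 h9 with h10 | h10 <;> linarith
    have h8 : 1 ≤ ‖Q'.val f⁻¹‖ := h6.trans h7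
    have h9 : Q'.val f⁻¹ ≠ 0 := by
      intro h10
      rw [h10, norm_zero] at h8
      linarith
    have h10 : Q.val f⁻¹ ≠ 0 := by
      intro h11
      rw [h11, norm_zero] at h6
      linarith
    have h11 := Q'.inv_mem_of_val h2 h9
    have h12 := Q'.val_inv h2 h9
    have h13 := Q.val_inv h1 h10
    rw [inv_inv] at h11 h12 h13
    refine ⟨h11, ?_⟩
    rw [h12, h13, inv_sub_inv h10 h9, norm_div, norm_mul, norm_sub_rev]
    rw [div_le_iff₀ (by positivity)]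
    calc ‖Q.val f⁻¹ - Q'.val f⁻¹‖ ≤ ε * (1 * 1) := by linarith
      _ ≤ ε * (‖Q.val f⁻¹‖ * ‖Q'.val f⁻¹‖) := by
        gcongr

theorem INV_an {K : Type u} {Ω : Type v} {E : Type w} [NormedField K] [IsUltrametricDist K]
    [Field Ω] [Algebra K Ω] [Algebra (RatFunc K) Ω] [IsScalarTower K (RatFunc K) Ω]
    [Field E] [Algebra K E] {Φ : Place K Ω → Place K E} {f : E} (h : AnF Φ f) {ε : ℝ}
    (hε : 0 < ε) : ∃ S : Finset Ω, ∀ σ : Ω ≃ₐ[RatFunc K] Ω, (∀ t ∈ S, σ t = t) →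
      ∀ P : Place K Ω, INV_D ε f (Φ P) (Φ (P.gact σ)) := by
  classical
  obtain ⟨n, T, g, hcov, happ⟩ := h ε hε
  refine ⟨(Finset.univ.biUnion T) ∪ Finset.univ.image g, fun σ hσ P => ?_⟩
  have hg : ∀ i, σ (g i) = g i := fun i => hσ _ (Finset.mem_union_right _
    (Finset.mem_image_of_mem _ (Finset.mem_univ i)))
  have hT : ∀ i, ∀ t ∈ T i, σ t = t := fun i t ht => hσ _ (Finset.mem_union_left _
    (Finset.mem_biUnion.2 ⟨i, Finset.mem_univ i, ht⟩))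
  obtain ⟨i, hi⟩ := hcov P
  have hi' : P.gact σ ∈ Dom K (T i) := by
    intro t ht
    rw [Place.mem_gact, Place.val_gact, hT i t ht]
    exact hi t ht
  have hd : ∀ a b c : K, ‖a - c‖ ≤ ε → ‖b - c‖ ≤ ε → ‖a - b‖ ≤ ε := by
    intro a b c h1 h2
    have e : a - b = (a - c) - (b - c) := by ring
    rw [e]
    exact (norm_sub_le_max' _ _).trans (max_le h1 h2)
  rcases happ i with h1 | h1
  · obtain ⟨h2, h3, h4⟩ := h1 P hi
    obtain ⟨h5, h6, h7⟩ := h1 _ hi'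
    rw [Place.val_gact, hg i] at h7
    exact Or.inl ⟨h2, h5, hd _ _ _ h4 h7⟩
  · obtain ⟨h2, h3, h4⟩ := h1 P hi
    obtain ⟨h5, h6, h7⟩ := h1 _ hi'
    rw [Place.val_gact, hg i] at h7
    exact Or.inr ⟨h2, h5, hd _ _ _ h4 h7⟩

theorem sInv (hRig : SRig.{u}) (hFin : SFin.{u}) (hAgr : SAgr.{u}) (hPul : SPul.{u})
    (hCrd : SCrd.{u}) (hItg : SItg.{u}) : SInv.{u} := by
  intro K Ω E _ _ _ _ _ _ _ _ _ _ _ _ _ p g hp hp1 hg s x y hadm hx heq Φ hxa hya hwa hinf hzero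
  classical
  have hp0 : 0 < ‖(p : K)‖ := by
    rw [norm_pos_iff]
    exact_mod_cast hp.ne_zero
  have hp3 : 0 < ‖(p : K)‖ ^ 3 := by positivity
  have hp31 : ‖(p : K)‖ ^ 3 ≤ 1 := pow_le_one₀ (norm_nonneg _) hp1.le
  set ε : ℝ := ‖(p : K)‖ ^ 3 / 2 with hε
  have hε0 : 0 < ε := by positivity
  have hε1 : ε < 1 := by linarith
  have hs : ‖s‖ ≤ 1 := by
    rcases hadm with h | h
    · exact h.2.le
    · have e : s = (s - 1) + 1 := by ring
      rw [e]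
      refine (IsUltrametricDist.norm_add_le_max _ _).trans (max_le h.2.le ?_)
      rw [norm_one]
  obtain ⟨S1, hS1⟩ := INV_an hxa hε0
  obtain ⟨S2, hS2⟩ := INV_an hya hε0
  obtain ⟨S3, hS3⟩ := INV_an hwa hε0
  obtain ⟨F', hF1, hF2, hF3⟩ := hFin K Ω (S1 ∪ S2 ∪ S3)
  have main : ∀ P P' : Place K Ω, Agree (F' : Set Ω) P P' →
      SameVal x (Φ P) (Φ P') ∧ SameVal y (Φ P) (Φ P') := by
    intro P P' hPP
    obtain ⟨σ, hσ, rfl⟩ := hAgr K Ω F' P P' hPP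
    have h1 := hS1 σ fun t ht => hσ t (hF3 t (by simp [ht]))
    have h2 := hS2 σ fun t ht => hσ t (hF3 t (by simp [ht]))
    have h3 := hS3 σ fun t ht => hσ t (hF3 t (by simp [ht]))
    have hpul : ∀ f : E, AnF Φ f → AnF (fun P : Place K Ω => Φ (P.gact σ)) f := fun f hf =>
      (hPul K Ω E Ω Φ f ((σ.restrictScalars K : Ω ≃ₐ[K] Ω) : Ω →ₐ[K] Ω) hf).1
    have hclose : ∀ P : Place K Ω, CloseAt g x y ε (Φ P) (Φ (P.gact σ)) := by
      intro P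
      obtain ⟨c1, c2, -, -⟩ := hCrd K E g s x y hx heq (Φ P)
      refine ⟨fun hxm hxn => ?_, fun hxm hxn => ?_⟩
      · obtain ⟨c3, c4⟩ := c1 hxm
        obtain ⟨a1, a2⟩ := INV_close hε0.le hε1 (h1 P) hxm hxn
        obtain ⟨b1, b2⟩ := INV_close hε0.le hε1 (h2 P) c3 ((hItg K g s hs).1 _ _ hxn c4)
        exact ⟨a1, a2, b2⟩
      · obtain ⟨c3, c4⟩ := c2 hxm
        obtain ⟨a1, a2⟩ := INV_close hε0.le hε1 (INV_D_inv (h1 P)) hxm hxn
        obtain ⟨b1, b2⟩ := INV_close hε0.le hε1 (h3 P) c3 ((hItg K g s hs).2 _ _ hxn c4)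
        exact ⟨a1, a2, b2⟩
    exact hRig K Ω E p g hp hp1 hg s x y hadm hx heq Φ (fun P => Φ (P.gact σ)) hxa hya hwa
      (hpul x hxa) (hpul y hya) (hpul _ hwa) ε (by linarith) hclose hinf hzero P
  exact ⟨F', hF1, hF2, fun P P' h => (main P P' h).1, fun P P' h => (main P P' h).2⟩

end PUC
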