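import Pool.Agent.H77.PUC.StmtsE
import Pool.Agent.H77.PUC.Util

/-! # PUC, module LDA: rational approximation at the generic points of a disc -/

universe u

namespace PUC

open Polynomial Filter Topology Metric

section
variable {K : Type u} [NontriviallyNormedField K] [IsUltrametricDist K]

/-- the filter of the generic points of a disc -/
def LDA_fil (c : K) (r : ℝ) : Filter K := ⨅ S : Finset K, 𝓟 (Gen c r S)

omit [IsUltrametricDist K] in
theorem LDA_mem (c : K) (r : ℝ) (A : Set K) :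
    A ∈ LDA_fil c r ↔ ∃ S : Finset K, Gen c r S ⊆ A := by
  classical
  unfold LDA_fil
  rw [Filter.mem_iInf_of_directed]
  · simp only [mem_principal]
  · intro S S'
    refine ⟨S ∪ S', ?_, ?_⟩
    · exact principal_mono.2 fun a ha => ⟨ha.1, fun s hs => ha.2 s (Finset.mem_union_left _ hs)⟩
    · exact principal_mono.2 fun a ha => ⟨ha.1, fun s hs => ha.2 s (Finset.mem_union_right _ hs)⟩

omit [IsUltrametricDist K] in
theorem LDA_neBot {c : K} {r : ℝ} (h : ∀ S : Finset K, (Gen c r S).Nonempty) :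
    (LDA_fil c r).NeBot := by
  constructor
  intro hbot
  have h0 : (∅ : Set K) ∈ LDA_fil c r := by
    rw [hbot]
    exact mem_bot
  obtain ⟨S, hS⟩ := (LDA_mem c r ∅).1 h0
  obtain ⟨a, ha⟩ := h S
  exact hS ha

/-- the norm of `a - β` at the generic points -/
theorem LDA_norm {c : K} {r : ℝ} {β a : K} (h1 : ‖a - c‖ ≤ r) (h2 : r ≤ ‖a - β‖) :
    ‖a - β‖ = max r ‖c - β‖ := by
  rcases le_or_gt ‖c - β‖ r with h | h
  · rw [max_eq_left h]
    refine le_antisymm ?_ h2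
    have e : a - β = (a - c) + (c - β) := by ring
    rw [e]
    exact (IsUltrametricDist.norm_add_le_max _ _).trans (max_le h1 h)
  · rw [max_eq_right h.le]
    have e : a - β = (a - c) + (c - β) := by ring
    rw [e]
    refine IsUltrametricDist.norm_add_eq_max_of_norm_ne_norm ?_ |>.trans ?_
    · exact (h1.trans_lt h).ne
    · exact max_eq_right (h1.trans h.le)

omit [IsUltrametricDist K] in
/-- `RV` is decided along a filter on which the norms of all rational functions are eventually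
constant. -/
theorem LDA_dec {𝓕 : Filter K} {h : RatFunc K} {C : ℝ}
    (hc : ∀ᶠ a in 𝓕, reg a h ∧ ‖ev a h‖ = C) :
    (∀ᶠ a in 𝓕, RV a h) ∨ (∀ᶠ a in 𝓕, ¬ RV a h) := by
  rcases le_or_gt C 1 with h1 | h1
  · left
    filter_upwards [hc] with a ha
    exact ⟨ha.1, ha.2.le.trans h1⟩
  · right
    filter_upwards [hc] with a ha
    rintro ⟨-, h2⟩
    rw [ha.2] at h2
    linarith

end

theorem sLda (hLcf : SLcf.{u}) (hLim : SLim.{u}) (hFlt : SFlt.{u}) (hGne : SGne.{u}) :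
    SLda.{u} := by
  classical
  intro K Ω _ _ _ _ _ _ _ _ _ _ _ p hp hp1 a0 c0 η H hD c ϖ hϖ hϖc hc
  have hr : 0 < ‖ϖ‖ := norm_pos_iff.2 hϖ
  have : (LDA_fil c ‖ϖ‖).NeBot := LDA_neBot fun S => hGne K c ϖ S hϖ
  have hev : ∀ β : K, ∀ᶠ a in LDA_fil c ‖ϖ‖, ‖a - c‖ ≤ ‖ϖ‖ ∧ ‖ϖ‖ ≤ ‖a - β‖ := by
    intro β
    refine (LDA_mem c ‖ϖ‖ _).2 ⟨{β}, fun a ha => ⟨ha.1, ha.2 β (Finset.mem_singleton_self β)⟩⟩
  have hw : ∀ β : K, ∀ᶠ a in LDA_fil c ‖ϖ‖, ‖a - β‖ = max ‖ϖ‖ ‖c - β‖ := by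
    intro β
    filter_upwards [hev β] with a ha
    exact LDA_norm ha.1 ha.2
  have hwp : ∀ β : K, 0 < max ‖ϖ‖ ‖c - β‖ := fun β => lt_max_of_lt_left hr
  have hlim := hLim K (LDA_fil c ‖ϖ‖) (fun β => max ‖ϖ‖ ‖c - β‖) fun β =>
    ⟨hwp β, tendsto_nhds_of_eventually_eq (hw β)⟩
  have hcc : ∀ᶠ a in LDA_fil c ‖ϖ‖, ‖a - c‖ = ‖ϖ‖ := by
    filter_upwards [hw c] with a ha
    rw [ha, sub_self, norm_zero, max_eq_left hr.le]
  have hflt := hFlt K (LDA_fil c ‖ϖ‖) c (by
    filter_upwards [hcc] with a ha h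
    rw [h, sub_self, norm_zero] at ha
    linarith) fun β => Or.inl ⟨_, hwp β, hw β⟩
  -- norms are eventually constant
  have hconst : ∀ h : RatFunc K, h ≠ 0 → ∀ᶠ a in LDA_fil c ‖ϖ‖, reg a h ∧
      ‖ev a h‖ = vw (fun β => max ‖ϖ‖ ‖c - β‖) h := by
    intro h hh
    obtain ⟨C, m, hC, hev⟩ := hflt h hh
    have h1 : ∀ᶠ a in LDA_fil c ‖ϖ‖, reg a h ∧ ‖ev a h‖ = C * ‖ϖ‖ ^ m := by
      filter_upwards [hev, hcc] with a ha hb
      rw [hb] at ha
      exact ha
    have h2 : vw (fun β => max ‖ϖ‖ ‖c - β‖) h = C * ‖ϖ‖ ^ m :=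
      tendsto_nhds_unique (hlim h hh).2.1
        (tendsto_nhds_of_eventually_eq (h1.mono fun a ha => ha.2))
    rw [h2]
    exact h1
  have h0 : ∀ a : K, RV a (0 : RatFunc K) := by
    intro a
    unfold RV reg ev
    simp
  obtain ⟨T', b, hT', hb⟩ := hLcf K Ω p hp hp1 a0 c0 η H hD (LDA_fil c ‖ϖ‖)
    (vw (fun β => max ‖ϖ‖ ‖c - β‖)) (by
      filter_upwards [hcc] with a ha
      rw [mem_closedBall, dist_eq_norm] at hc
      have e : a - a0 = (a - c) + (c - a0) := by ring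
      rw [e]
      exact (IsUltrametricDist.norm_add_le_max _ _).trans (max_le (ha.le.trans hϖc) hc))
    (fun h hh => ⟨(hlim h hh).1, (hlim h hh).2.1⟩)
    (fun h => by
      by_cases hh : h = 0
      · left
        rw [hh]
        exact Eventually.of_forall h0
      · exact LDA_dec (hconst h hh))
    (fun T1 hT1 => by
      have h1 : ∀ h ∈ T1, ∀ᶠ a in LDA_fil c ‖ϖ‖, RV a h := by
        intro h hh
        by_cases hz : h = 0
        · rw [hz]
          exact Eventually.of_forall h0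
        · filter_upwards [hconst h hz] with a ha
          exact ⟨ha.1, ha.2.le.trans ((hT1 h hh).resolve_left hz)⟩
      exact ((Filter.eventually_all_finset T1).2 h1).exists)
  obtain ⟨S, hS⟩ := (LDA_mem c ‖ϖ‖ _).1 ((Filter.eventually_all_finset T').2 hT')
  exact ⟨S, b, fun a ha => hb a (hS ha)⟩

end PUC
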