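import Pool.Agent.H2.PUC.LDA

/-! # PUC, module LDB: rational approximation just inside a residue disc -/

universe u

namespace PUC

open Polynomial Filter Topology Metric

theorem LDB_zpow_neg {x y : ℝ} {m : ℤ} (hx : 0 < x) (hxy : x < y) (hm : m < 0) :
    y ^ m < x ^ m := by
  have h1 := zpow_lt_zpow_left₀ (neg_pos.2 hm) hx.le hxy
  rw [zpow_neg, zpow_neg] at h1
  exact (inv_lt_inv₀ (zpow_pos hx m) (zpow_pos (hx.trans hxy) m)).1 h1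

theorem LDB_zpow_nonpos {x y : ℝ} {m : ℤ} (hx : 0 < x) (hxy : x < y) (hm : m ≤ 0) :
    y ^ m ≤ x ^ m := by
  rcases hm.eq_or_lt with rfl | hm
  · rw [zpow_zero, zpow_zero]
  · exact (LDB_zpow_neg hx hxy hm).le

section
variable {K : Type u} [NontriviallyNormedField K] [IsUltrametricDist K]

theorem LDB_norm_left {a b c : K} (h : ‖a - b‖ < ‖b - c‖) : ‖a - c‖ = ‖b - c‖ := by
  have e : a - c = (a - b) + (b - c) := by ring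
  rw [e]
  exact (IsUltrametricDist.norm_add_eq_max_of_norm_ne_norm h.ne).trans (max_eq_right h.le)

theorem LDB_norm_right {a b c : K} (h : ‖b - c‖ < ‖a - b‖) : ‖a - c‖ = ‖a - b‖ := by
  have e : a - c = (a - b) + (b - c) := by ring
  rw [e]
  exact (IsUltrametricDist.norm_add_eq_max_of_norm_ne_norm h.ne').trans (max_eq_left h.le)

/-- the behaviour of `a - β` if `‖a - c‖ → r` -/
theorem LDB_alt {𝓕 : Filter K} {c β : K} {r : ℝ} (hr : 0 < r)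
    (hlim : Tendsto (fun a => ‖a - c‖) 𝓕 (𝓝 r))
    (h : ‖c - β‖ ≠ r ∨ (∀ᶠ a in 𝓕, ‖a - c‖ < r) ∨ (∀ᶠ a in 𝓕, r < ‖a - c‖)) :
    ((∃ C : ℝ, 0 < C ∧ ∀ᶠ a in 𝓕, ‖a - β‖ = C) ∨ (∀ᶠ a in 𝓕, ‖a - β‖ = ‖a - c‖)) ∧
      Tendsto (fun a => ‖a - β‖) 𝓕 (𝓝 (max r ‖c - β‖)) := by
  have case1 : (∀ᶠ a in 𝓕, ‖a - c‖ < ‖c - β‖) → r ≤ ‖c - β‖ →
      ((∃ C : ℝ, 0 < C ∧ ∀ᶠ a in 𝓕, ‖a - β‖ = C) ∨ (∀ᶠ a in 𝓕, ‖a - β‖ = ‖a - c‖)) ∧
        Tendsto (fun a => ‖a - β‖) 𝓕 (𝓝 (max r ‖c - β‖)) := by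
    intro h1 h2
    have h3 : ∀ᶠ a in 𝓕, ‖a - β‖ = ‖c - β‖ := h1.mono fun a ha => LDB_norm_left ha
    refine ⟨Or.inl ⟨‖c - β‖, hr.trans_le h2, h3⟩, ?_⟩
    rw [max_eq_right h2]
    exact tendsto_nhds_of_eventually_eq h3
  have case2 : (∀ᶠ a in 𝓕, ‖c - β‖ < ‖a - c‖) → ‖c - β‖ ≤ r →
      ((∃ C : ℝ, 0 < C ∧ ∀ᶠ a in 𝓕, ‖a - β‖ = C) ∨ (∀ᶠ a in 𝓕, ‖a - β‖ = ‖a - c‖)) ∧
        Tendsto (fun a => ‖a - β‖) 𝓕 (𝓝 (max r ‖c - β‖)) := by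
    intro h1 h2
    have h3 : ∀ᶠ a in 𝓕, ‖a - β‖ = ‖a - c‖ := h1.mono fun a ha => LDB_norm_right ha
    refine ⟨Or.inr h3, ?_⟩
    rw [max_eq_left h2]
    exact hlim.congr' (h3.mono fun a ha => ha.symm)
  rcases lt_trichotomy ‖c - β‖ r with h1 | h1 | h1
  · exact case2 (hlim.eventually (lt_mem_nhds h1)) h1.le
  · rcases h with h | h | h
    · exact absurd h1 h
    · exact case1 (by rw [h1]; exact h) h1.ge
    · exact case2 (by rw [h1]; exact h) h1.le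
  · exact case1 (hlim.eventually (gt_mem_nhds h1)) h1.le

omit [IsUltrametricDist K] in
/-- `RV` is decided along a filter on which rational functions behave as monomials -/
theorem LDB_dec {𝓕 : Filter K} {c : K} {r : ℝ} (hr : 0 < r)
    (hlim : Tendsto (fun a => ‖a - c‖) 𝓕 (𝓝 r)) {h : RatFunc K} {C : ℝ} {m : ℤ}
    (hC : 0 < C) (hc : ∀ᶠ a in 𝓕, reg a h ∧ ‖ev a h‖ = C * ‖a - c‖ ^ m)
    (hs : C * r ^ m ≠ 1 ∨ m = 0 ∨ (∀ᶠ a in 𝓕, ‖a - c‖ < r) ∨ (∀ᶠ a in 𝓕, r < ‖a - c‖)) :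
    (∀ᶠ a in 𝓕, RV a h) ∨ (∀ᶠ a in 𝓕, ¬ RV a h) := by
  have hl : Tendsto (fun a => C * ‖a - c‖ ^ m) 𝓕 (𝓝 (C * r ^ m)) :=
    (hlim.zpow₀ m (Or.inl hr.ne')).const_mul C
  have hpos : ∀ᶠ a in 𝓕, 0 < ‖a - c‖ := hlim.eventually (lt_mem_nhds hr)
  have yes : (∀ᶠ a in 𝓕, C * ‖a - c‖ ^ m ≤ 1) → (∀ᶠ a in 𝓕, RV a h) := by
    intro h1
    filter_upwards [h1, hc] with a h1 h2
    exact ⟨h2.1, h2.2.le.trans h1⟩
  have no : (∀ᶠ a in 𝓕, 1 < C * ‖a - c‖ ^ m) → (∀ᶠ a in 𝓕, ¬ RV a h) := by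
    intro h1
    filter_upwards [h1, hc] with a h1 h2
    rintro ⟨-, h3⟩
    rw [h2.2] at h3
    linarith
  rcases lt_trichotomy (C * r ^ m) 1 with h1 | h1 | h1
  · exact Or.inl (yes ((hl.eventually (gt_mem_nhds h1)).mono fun a ha => ha.le))
  · rcases hs with hs | hs | hs | hs
    · exact absurd h1 hs
    · subst hs
      rw [zpow_zero] at h1
      left
      apply yes
      filter_upwards with a
      rw [zpow_zero]
      exact h1.le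
    · rcases le_or_gt 0 m with hm | hm
      · left
        apply yes
        filter_upwards [hs, hpos] with a h2 h3
        rw [← h1]
        exact mul_le_mul_of_nonneg_left (zpow_le_zpow_left₀ hm h3.le h2.le) hC.le
      · right
        apply no
        filter_upwards [hs, hpos] with a h2 h3
        rw [← h1]
        refine mul_lt_mul_of_pos_left ?_ hC
        exact LDB_zpow_neg h3 h2 hm
    · rcases lt_or_ge 0 m with hm | hm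
      · right
        apply no
        filter_upwards [hs, hpos] with a h2 h3
        rw [← h1]
        exact mul_lt_mul_of_pos_left (zpow_lt_zpow_left₀ hm hr.le h2) hC
      · left
        apply yes
        filter_upwards [hs, hpos] with a h2 h3
        rw [← h1]
        exact mul_le_mul_of_nonneg_left (LDB_zpow_nonpos hr h2 hm) hC.le
  · exact Or.inr (no (hl.eventually (lt_mem_nhds h1)))

end

/-- the norms of rational functions at the generic points -/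
theorem LDB_gen (hLim : SLim.{u}) (hFlt : SFlt.{u}) (hGne : SGne.{u}) (K : Type u)
    [NontriviallyNormedField K] [IsUltrametricDist K] [IsAlgClosed K] (c ϖ : K) (hϖ : ϖ ≠ 0)
    (h : RatFunc K) (hh : h ≠ 0) : ∀ᶠ a in LDA_fil c ‖ϖ‖, reg a h ∧
      ‖ev a h‖ = vw (fun β => max ‖ϖ‖ ‖c - β‖) h := by
  have hr : 0 < ‖ϖ‖ := norm_pos_iff.2 hϖ
  have : (LDA_fil c ‖ϖ‖).NeBot := LDA_neBot fun S => hGne K c ϖ S hϖ
  have hev : ∀ β : K, ∀ᶠ a in LDA_fil c ‖ϖ‖, ‖a - c‖ ≤ ‖ϖ‖ ∧ ‖ϖ‖ ≤ ‖a - β‖ := by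
    intro β
    refine (LDA_mem c ‖ϖ‖ _).2 ⟨{β}, fun a ha => ⟨ha.1, ha.2 β (Finset.mem_singleton_self β)⟩⟩
  have hw : ∀ β : K, ∀ᶠ a in LDA_fil c ‖ϖ‖, ‖a - β‖ = max ‖ϖ‖ ‖c - β‖ := by
    intro β
    filter_upwards [hev β] with a ha
    exact LDA_norm ha.1 ha.2
  have hwp : ∀ β : K, 0 < max ‖ϖ‖ ‖c - β‖ := fun β => lt_max_of_lt_left hr
  have hlim := hLim K (LDA_fil c ‖ϖ‖) (fun β => max ‖ϖ‖ ‖c - β‖) fun β =>
    ⟨hwp β, tendsto_nhds_of_eventually_eq (hw β)⟩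
  have hcc : ∀ᶠ a in LDA_fil c ‖ϖ‖, ‖a - c‖ = ‖ϖ‖ := by
    filter_upwards [hw c] with a ha
    rw [ha, sub_self, norm_zero, max_eq_left hr.le]
  have hflt := hFlt K (LDA_fil c ‖ϖ‖) c (by
    filter_upwards [hcc] with a ha h
    rw [h, sub_self, norm_zero] at ha
    linarith) fun β => Or.inl ⟨_, hwp β, hw β⟩
  obtain ⟨C, m, hC, hev⟩ := hflt h hh
  have h1 : ∀ᶠ a in LDA_fil c ‖ϖ‖, reg a h ∧ ‖ev a h‖ = C * ‖ϖ‖ ^ m := by
    filter_upwards [hev, hcc] with a ha hb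
    rw [hb] at ha
    exact ha
  have h2 : vw (fun β => max ‖ϖ‖ ‖c - β‖) h = C * ‖ϖ‖ ^ m :=
    tendsto_nhds_unique (hlim h hh).2.1
      (tendsto_nhds_of_eventually_eq (h1.mono fun a ha => ha.2))
  rw [h2]
  exact h1

/-- The common part of LDB, LDC. -/
theorem LDB_core (hLcf : SLcf.{u}) (hLim : SLim.{u}) (hFlt : SFlt.{u}) (hGne : SGne.{u})
    (K Ω : Type u) [NontriviallyNormedField K] [IsUltrametricDist K]
    [CompleteSpace K] [IsAlgClosed K] [CharZero K] [Field Ω] [Algebra K Ω]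
    [Algebra (RatFunc K) Ω] [IsScalarTower K (RatFunc K) Ω] [Algebra.IsAlgebraic (RatFunc K) Ω]
    [IsAlgClosed Ω] (p : ℕ) (hp : p.Prime) (hp1 : ‖(p : K)‖ < 1)
    (a0 c0 : K) (η : ℝ) (H : K → K) (hD : Data Ω a0 c0 η H)
    (c ϖ : K) (hϖ : ϖ ≠ 0) (𝓕 : Filter K) [NeBot 𝓕] (h0 : ∀ᶠ a in 𝓕, ‖a - a0‖ ≤ ‖c0‖)
    (hlim : Tendsto (fun a => ‖a - c‖) 𝓕 (𝓝 ‖ϖ‖))
    (hside : (∀ᶠ a in 𝓕, ‖a - c‖ < ‖ϖ‖) ∨ (∀ᶠ a in 𝓕, ‖ϖ‖ < ‖a - c‖)) :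
    ∃ (S : Finset K) (b : RatFunc K) (W : Set K), W ∈ 𝓕 ∧
      Apx H (‖(p : K)‖⁻¹ ^ 3 * η) W b ∧ Apx H (‖(p : K)‖⁻¹ ^ 3 * η) (Gen c ‖ϖ‖ S) b := by
  classical
  have hr : 0 < ‖ϖ‖ := norm_pos_iff.2 hϖ
  have hNB : (LDA_fil c ‖ϖ‖).NeBot := LDA_neBot fun S => hGne K c ϖ S hϖ
  have hβ := fun β : K => LDB_alt (β := β) hr hlim (Or.inr hside)
  have hwp : ∀ β : K, 0 < max ‖ϖ‖ ‖c - β‖ := fun β => lt_max_of_lt_left hr
  have hl := hLim K 𝓕 (fun β => max ‖ϖ‖ ‖c - β‖) fun β => ⟨hwp β, (hβ β).2⟩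
  have hpos : ∀ᶠ a in 𝓕, 0 < ‖a - c‖ := hlim.eventually (lt_mem_nhds hr)
  have hflt := hFlt K 𝓕 c (hpos.mono fun a ha h => by
    rw [h, sub_self, norm_zero] at ha
    exact lt_irrefl 0 ha) fun β => (hβ β).1
  have hgen := LDB_gen hLim hFlt hGne K c ϖ hϖ
  have hz : ∀ a : K, RV a (0 : RatFunc K) := by
    intro a
    unfold RV reg ev
    simp
  -- functions of norm at most one at the generic point
  have hone : ∀ h : RatFunc K, h = 0 ∨ vw (fun β => max ‖ϖ‖ ‖c - β‖) h ≤ 1 →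
      ∀ᶠ a in LDA_fil c ‖ϖ‖, RV a h := by
    intro h hh
    by_cases hh0 : h = 0
    · rw [hh0]
      exact Eventually.of_forall hz
    · filter_upwards [hgen h hh0] with a ha
      exact ⟨ha.1, ha.2.le.trans (hh.resolve_left hh0)⟩
  obtain ⟨T', b, hT', hb⟩ := hLcf K Ω p hp hp1 a0 c0 η H hD 𝓕
    (vw (fun β => max ‖ϖ‖ ‖c - β‖)) h0
    (fun h hh => ⟨(hl h hh).1, (hl h hh).2.1⟩)
    (fun h => by
      by_cases hh : h = 0
      · left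
        rw [hh]
        exact Eventually.of_forall hz
      · obtain ⟨C, m, hC, hev⟩ := hflt h hh
        exact LDB_dec hr hlim hC hev (Or.inr (Or.inr hside)))
    (fun T1 hT1 => ((Filter.eventually_all_finset T1).2 fun h hh => hone h (hT1 h hh)).exists)
  have hgen' : ∀ h ∈ T', ∀ᶠ a in LDA_fil c ‖ϖ‖, RV a h := by
    intro h hh
    apply hone
    by_cases hh0 : h = 0
    · exact Or.inl hh0
    · right
      exact le_of_tendsto (hl h hh0).2.1 ((hT' h hh).mono fun a ha => ha.2)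
  obtain ⟨S, hS⟩ := (LDA_mem c ‖ϖ‖ _).1 ((Filter.eventually_all_finset T').2 hgen')
  exact ⟨S, b, {a | ∀ h ∈ T', RV a h}, (Filter.eventually_all_finset T').2 hT',
    fun a ha => hb a ha, fun a ha => hb a (hS ha)⟩

theorem sLdb (hLcf : SLcf.{u}) (hLim : SLim.{u}) (hFlt : SFlt.{u}) (hGne : SGne.{u}) :
    SLdb.{u} := by
  intro K Ω _ _ _ _ _ _ _ _ _ _ _ p hp hp1 a0 c0 η H hD s ϖ hϖ hϖc hs
  have hr : 0 < ‖ϖ‖ := norm_pos_iff.2 hϖ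
  rw [mem_closedBall, dist_eq_norm] at hs
  set 𝓕 : Filter K := ⨅ ρ : Set.Iio ‖ϖ‖, 𝓟 {a : K | (ρ : ℝ) ≤ ‖a - s‖ ∧ ‖a - s‖ < ‖ϖ‖} with h𝓕
  have hne : Nonempty (Set.Iio ‖ϖ‖) := ⟨⟨0, hr⟩⟩
  have hmem : ∀ A : Set K, A ∈ 𝓕 ↔
      ∃ ρ : ℝ, ρ < ‖ϖ‖ ∧ {a : K | ρ ≤ ‖a - s‖ ∧ ‖a - s‖ < ‖ϖ‖} ⊆ A := by
    intro A
    rw [h𝓕, Filter.mem_iInf_of_directed]
    · simp only [mem_principal, Subtype.exists, Set.mem_Iio, exists_prop]
    · intro ρ ρ'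
      refine ⟨⟨max (ρ : ℝ) ρ', Set.mem_Iio.2 (max_lt (Set.mem_Iio.1 ρ.2) (Set.mem_Iio.1 ρ'.2))⟩,
        ?_, ?_⟩
      · exact principal_mono.2 fun a ha => ⟨(le_max_left _ _).trans ha.1, ha.2⟩
      · exact principal_mono.2 fun a ha => ⟨(le_max_right _ _).trans ha.1, ha.2⟩
  have hNB : 𝓕.NeBot := by
    constructor
    intro hbot
    obtain ⟨ρ, hρ, h1⟩ := (hmem ∅).1 (by rw [hbot]; exact mem_bot)
    obtain ⟨x, hx1, hx2⟩ := exists_norm_between (K := K) (le_max_right ρ 0) (max_lt hρ hr)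
    have h2 : s + x ∈ (∅ : Set K) := h1 (by
      show ρ ≤ ‖s + x - s‖ ∧ ‖s + x - s‖ < ‖ϖ‖
      rw [add_sub_cancel_left]
      exact ⟨(le_max_left _ _).trans hx1.le, hx2⟩)
    exact h2
  have hlt : ∀ᶠ a in 𝓕, ‖a - s‖ < ‖ϖ‖ := (hmem _).2 ⟨0, hr, fun a ha => ha.2⟩
  have hlim : Tendsto (fun a => ‖a - s‖) 𝓕 (𝓝 ‖ϖ‖) := by
    rw [tendsto_order]
    refine ⟨fun x hx => ?_, fun x hx => hlt.mono fun a ha => ha.trans hx⟩
    refine (hmem _).2 ⟨(x + ‖ϖ‖) / 2, by linarith, fun a ha => ?_⟩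
    have := ha.1
    show x < ‖a - s‖
    linarith
  obtain ⟨S, b, W, hW, h1, h2⟩ := LDB_core hLcf hLim hFlt hGne K Ω p hp hp1 a0 c0 η H hD s ϖ hϖ 𝓕
    (hlt.mono fun a ha => by
      have e : a - a0 = (a - s) + (s - a0) := by ring
      rw [e]
      exact (IsUltrametricDist.norm_add_le_max _ _).trans (max_le (ha.le.trans hϖc) hs))
    hlim (Or.inl hlt)
  obtain ⟨ρ, hρ, hsub⟩ := (hmem W).1 hW
  exact ⟨ρ, S, b, hρ, fun a ha => h1 a (hsub ha), h2⟩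

end PUC
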