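import Pool.Agent.H2.PUC.LDB

/-! # PUC, module LDC: rational approximation just outside a disc -/

universe u

namespace PUC

open Polynomial Filter Topology Metric

theorem sLdc (hLcf : SLcf.{u}) (hLim : SLim.{u}) (hFlt : SFlt.{u}) (hGne : SGne.{u}) :
    SLdc.{u} := by
  intro K Ω _ _ _ _ _ _ _ _ _ _ _ p hp hp1 a0 c0 η H hD c ϖ hϖ hϖc hc
  have hr : 0 < ‖ϖ‖ := norm_pos_iff.2 hϖ
  rw [mem_closedBall, dist_eq_norm] at hc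
  set 𝓕 : Filter K := ⨅ r' : Set.Ioi ‖ϖ‖, 𝓟 {a : K | ‖ϖ‖ < ‖a - c‖ ∧ ‖a - c‖ ≤ r'} with h𝓕
  have hne : Nonempty (Set.Ioi ‖ϖ‖) := ⟨⟨‖c0‖, hϖc⟩⟩
  have hmem : ∀ A : Set K, A ∈ 𝓕 ↔
      ∃ r' : ℝ, ‖ϖ‖ < r' ∧ {a : K | ‖ϖ‖ < ‖a - c‖ ∧ ‖a - c‖ ≤ r'} ⊆ A := by
    intro A
    rw [h𝓕, Filter.mem_iInf_of_directed]
    · simp only [mem_principal, Subtype.exists, Set.mem_Ioi, exists_prop]
    · intro ρ ρ'
      refine ⟨⟨min (ρ : ℝ) ρ', Set.mem_Ioi.2 (lt_min (Set.mem_Ioi.1 ρ.2) (Set.mem_Ioi.1 ρ'.2))⟩,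
        ?_, ?_⟩
      · exact principal_mono.2 fun a ha => ⟨ha.1, ha.2.trans (min_le_left _ _)⟩
      · exact principal_mono.2 fun a ha => ⟨ha.1, ha.2.trans (min_le_right _ _)⟩
  have hNB : 𝓕.NeBot := by
    constructor
    intro hbot
    obtain ⟨ρ, hρ, h1⟩ := (hmem ∅).1 (by rw [hbot]; exact mem_bot)
    obtain ⟨x, hx1, hx2⟩ := exists_norm_between (K := K) hr.le hρ
    have h2 : c + x ∈ (∅ : Set K) := h1 (by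
      show ‖ϖ‖ < ‖c + x - c‖ ∧ ‖c + x - c‖ ≤ ρ
      rw [add_sub_cancel_left]
      exact ⟨hx1, hx2.le⟩)
    exact h2
  have hlt : ∀ᶠ a in 𝓕, ‖ϖ‖ < ‖a - c‖ := (hmem _).2 ⟨‖c0‖, hϖc, fun a ha => ha.1⟩
  have hle : ∀ᶠ a in 𝓕, ‖a - c‖ ≤ ‖c0‖ := (hmem _).2 ⟨‖c0‖, hϖc, fun a ha => ha.2⟩
  have hlim : Tendsto (fun a => ‖a - c‖) 𝓕 (𝓝 ‖ϖ‖) := by
    rw [tendsto_order]
    refine ⟨fun x hx => hlt.mono fun a ha => hx.trans ha, fun x hx => ?_⟩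
    refine (hmem _).2 ⟨(x + ‖ϖ‖) / 2, by linarith, fun a ha => ?_⟩
    have := ha.2
    show ‖a - c‖ < x
    linarith
  obtain ⟨S, b, W, hW, h1, h2⟩ := LDB_core hLcf hLim hFlt hGne K Ω p hp hp1 a0 c0 η H hD c ϖ hϖ 𝓕
    (hle.mono fun a ha => by
      have e : a - a0 = (a - c) + (c - a0) := by ring
      rw [e]
      exact (IsUltrametricDist.norm_add_le_max _ _).trans (max_le ha hc))
    hlim (Or.inr hlt)
  obtain ⟨r', hr', hsub⟩ := (hmem W).1 hW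
  exact ⟨r', S, b, hr', fun a ha => h1 a (hsub ha), h2⟩

end PUC
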