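import Pool.Agent.H2.PUC.LDB

/-! # PUC, module LDF: rational approximation at the points of type 4 -/

universe u

namespace PUC

open Polynomial Filter Topology Metric

theorem sLdf (hLcf : SLcf.{u}) (hLim : SLim.{u}) (hFlt : SFlt.{u}) : SLdf.{u} := by
  classical
  intro K Ω _ _ _ _ _ _ _ _ _ _ _ p hp hp1 a0 c0 η H hD c r hr hc hrc hanti hnest hempty
  have hsub : ∀ n, closedBall (c (n + 1)) (r (n + 1)) ⊆ closedBall (c n) (r n) := by
    intro n a ha
    have h1 := hnest n
    rw [mem_closedBall, dist_eq_norm] at ha h1 ⊢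
    have e : a - c n = (a - c (n + 1)) + (c (n + 1) - c n) := by ring
    rw [e]
    exact (IsUltrametricDist.norm_add_le_max _ _).trans
      (max_le (ha.trans (hanti (Nat.le_succ n))) h1)
  have hAnti : Antitone fun n => closedBall (c n) (r n) := antitone_nat_of_succ_le hsub
  set 𝓕 : Filter K := ⨅ n : ℕ, 𝓟 (closedBall (c n) (r n)) with h𝓕
  have hmem : ∀ A : Set K, A ∈ 𝓕 ↔ ∃ n : ℕ, closedBall (c n) (r n) ⊆ A := by
    intro A
    rw [h𝓕, Filter.mem_iInf_of_directed]
    · simp only [mem_principal]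
    · intro n m
      exact ⟨max n m, principal_mono.2 (hAnti (le_max_left n m)),
        principal_mono.2 (hAnti (le_max_right n m))⟩
  have hNB : 𝓕.NeBot := by
    constructor
    intro hbot
    obtain ⟨n, h1⟩ := (hmem ∅).1 (by rw [hbot]; exact mem_bot)
    exact h1 (mem_closedBall_self (hr n).le)
  have hβ : ∀ β : K, ∃ C : ℝ, 0 < C ∧ ∀ᶠ a in 𝓕, ‖a - β‖ = C := by
    intro β
    have h1 : β ∉ ⋂ n, closedBall (c n) (r n) := by rw [hempty]; exact fun h => h
    rw [Set.mem_iInter, not_forall] at h1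
    obtain ⟨n, hn⟩ := h1
    rw [mem_closedBall, dist_eq_norm, not_le, norm_sub_rev] at hn
    refine ⟨‖c n - β‖, (hr n).trans hn, (hmem _).2 ⟨n, fun a ha => ?_⟩⟩
    rw [mem_closedBall, dist_eq_norm] at ha
    exact LDB_norm_left (ha.trans_lt hn)
  choose w hw0 hw using hβ
  have hl := hLim K 𝓕 w fun β => ⟨hw0 β, tendsto_nhds_of_eventually_eq (hw β)⟩
  have hflt := hFlt K 𝓕 0 (by
    filter_upwards [hw 0] with a ha h
    rw [h, sub_zero, norm_zero] at ha
    have := hw0 0
    linarith) fun β => Or.inl ⟨w β, hw0 β, hw β⟩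
  have hconst : ∀ h : RatFunc K, h ≠ 0 → ∀ᶠ a in 𝓕, reg a h ∧ ‖ev a h‖ = vw w h := by
    intro h hh
    obtain ⟨C, m, hC, hev⟩ := hflt h hh
    have h1 : ∀ᶠ a in 𝓕, reg a h ∧ ‖ev a h‖ = C * w 0 ^ m := by
      filter_upwards [hev, hw 0] with a ha hb
      rw [hb] at ha
      exact ha
    have h2 : vw w h = C * w 0 ^ m :=
      tendsto_nhds_unique (hl h hh).2.1
        (tendsto_nhds_of_eventually_eq (h1.mono fun a ha => ha.2))
    rw [h2]
    exact h1
  have hz : ∀ a : K, RV a (0 : RatFunc K) := by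
    intro a
    unfold RV reg ev
    simp
  obtain ⟨T', b, hT', hb⟩ := hLcf K Ω p hp hp1 a0 c0 η H hD 𝓕 (vw w)
    ((hmem _).2 ⟨0, fun a ha => by
      have h1 := hc 0
      rw [mem_closedBall, dist_eq_norm] at ha h1
      have e : a - a0 = (a - c 0) + (c 0 - a0) := by ring
      show ‖a - a0‖ ≤ ‖c0‖
      rw [e]
      exact (IsUltrametricDist.norm_add_le_max _ _).trans (max_le (ha.trans (hrc 0)) h1)⟩)
    (fun h hh => ⟨(hl h hh).1, (hl h hh).2.1⟩)
    (fun h => by
      by_cases hh : h = 0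
      · left
        rw [hh]
        exact Eventually.of_forall hz
      · exact LDA_dec (hconst h hh))
    (fun T1 hT1 => by
      have h1 : ∀ h ∈ T1, ∀ᶠ a in 𝓕, RV a h := by
        intro h hh
        by_cases hh0 : h = 0
        · rw [hh0]
          exact Eventually.of_forall hz
        · filter_upwards [hconst h hh0] with a ha
          exact ⟨ha.1, ha.2.le.trans ((hT1 h hh).resolve_left hh0)⟩
      exact ((Filter.eventually_all_finset T1).2 h1).exists)
  obtain ⟨n, hn⟩ := (hmem _).1 ((Filter.eventually_all_finset T').2 hT')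
  exact ⟨n, b, fun a ha => hb a (hn ha)⟩

end PUC
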