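import Pool.Agent.H2.PUC.LDB

/-! # PUC, module LDT: rational approximation at the points of type 3 -/

universe u

namespace PUC

open Polynomial Filter Topology Metric

/-- `C * r ^ m = 1` with `C` a norm and `r` not a norm implies `m = 0` -/
theorem LDT_zero {K : Type u} [NontriviallyNormedField K] [IsAlgClosed K] {r : ℝ} (hr : 0 < r)
    (hrK : ∀ ϖ : K, ‖ϖ‖ ≠ r) {u : K} {m : ℤ} (h : ‖u‖ * r ^ m = 1) : m = 0 := by
  by_contra hm
  have hn : m.natAbs ≠ 0 := Int.natAbs_ne_zero.2 hm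
  have key : ∀ v : K, ‖v‖ = r ^ m.natAbs → False := by
    intro v hv
    obtain ⟨y, hy⟩ := IsAlgClosed.exists_pow_nat_eq v (Nat.pos_of_ne_zero hn)
    have h1 : ‖y‖ ^ m.natAbs = r ^ m.natAbs := by rw [← norm_pow, hy, hv]
    exact hrK y ((pow_left_inj₀ (norm_nonneg y) hr.le hn).1 h1)
  rcases Int.natAbs_eq m with h1 | h1
  · apply key u⁻¹
    rw [norm_inv]
    rw [h1, zpow_natCast] at h
    exact inv_eq_of_mul_eq_one_right h
  · apply key u
    rw [h1, zpow_neg, zpow_natCast] at h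
    rwa [mul_inv_eq_one₀ (by positivity)] at h

theorem sLdt (hLcf : SLcf.{u}) (hLim : SLim.{u}) (hFlt : SFlt.{u}) : SLdt.{u} := by
  classical
  intro K Ω _ _ _ _ _ _ _ _ _ _ _ p hp hp1 a0 c0 η H hD c r hr hrc hc hrK
  rw [mem_closedBall, dist_eq_norm] at hc
  set 𝓕 : Filter K := ⨅ q : Set.Ioo 0 r × Set.Ioi r,
    𝓟 {a : K | (q.1 : ℝ) ≤ ‖a - c‖ ∧ ‖a - c‖ ≤ q.2} with h𝓕
  have hne : Nonempty (Set.Ioo 0 r × Set.Ioi r) :=
    ⟨⟨⟨r / 2, half_pos hr, half_lt_self hr⟩, ⟨‖c0‖, hrc⟩⟩⟩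
  have hmem : ∀ A : Set K, A ∈ 𝓕 ↔
      ∃ ρ r' : ℝ, 0 < ρ ∧ ρ < r ∧ r < r' ∧ {a : K | ρ ≤ ‖a - c‖ ∧ ‖a - c‖ ≤ r'} ⊆ A := by
    intro A
    rw [h𝓕, Filter.mem_iInf_of_directed]
    · constructor
      · rintro ⟨⟨⟨ρ, hρ⟩, ⟨r', hr'⟩⟩, h⟩
        exact ⟨ρ, r', hρ.1, hρ.2, hr', mem_principal.1 h⟩
      · rintro ⟨ρ, r', h1, h2, h3, h4⟩
        exact ⟨⟨⟨ρ, h1, h2⟩, ⟨r', h3⟩⟩, mem_principal.2 h4⟩
    · rintro ⟨⟨ρ, hρ⟩, ⟨r', hr'⟩⟩ ⟨⟨ρ', hρ'⟩, ⟨r'', hr''⟩⟩
      refine ⟨⟨⟨max ρ ρ', lt_max_of_lt_left hρ.1, max_lt hρ.2 hρ'.2⟩,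
        ⟨min r' r'', Set.mem_Ioi.2 (lt_min (Set.mem_Ioi.1 hr') (Set.mem_Ioi.1 hr''))⟩⟩, ?_, ?_⟩
      · exact principal_mono.2 fun a ha =>
          ⟨(le_max_left _ _).trans ha.1, ha.2.trans (min_le_left _ _)⟩
      · exact principal_mono.2 fun a ha =>
          ⟨(le_max_right _ _).trans ha.1, ha.2.trans (min_le_right _ _)⟩
  have hNB : 𝓕.NeBot := by
    constructor
    intro hbot
    obtain ⟨ρ, r', h1, h2, h3, h4⟩ := (hmem ∅).1 (by rw [hbot]; exact mem_bot)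
    obtain ⟨x, hx1, hx2⟩ := exists_norm_between (K := K) hr.le h3
    have h5 : c + x ∈ (∅ : Set K) := h4 (by
      show ρ ≤ ‖c + x - c‖ ∧ ‖c + x - c‖ ≤ r'
      rw [add_sub_cancel_left]
      exact ⟨(h2.trans hx1).le, hx2.le⟩)
    exact h5
  have hle : ∀ᶠ a in 𝓕, ‖a - c‖ ≤ ‖c0‖ :=
    (hmem _).2 ⟨r / 2, ‖c0‖, half_pos hr, half_lt_self hr, hrc, fun a ha => ha.2⟩
  have hlim : Tendsto (fun a => ‖a - c‖) 𝓕 (𝓝 r) := by
    rw [tendsto_order]
    refine ⟨fun x hx => ?_, fun x hx => ?_⟩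
    · refine (hmem _).2 ⟨max (r / 2) ((x + r) / 2), ‖c0‖, lt_max_of_lt_left (half_pos hr),
        max_lt (half_lt_self hr) (by linarith), hrc, fun a ha => ?_⟩
      have h1 := (le_max_right (r / 2) ((x + r) / 2)).trans ha.1
      show x < ‖a - c‖
      linarith
    · refine (hmem _).2 ⟨r / 2, (x + r) / 2, half_pos hr, half_lt_self hr, by linarith,
        fun a ha => ?_⟩
      have := ha.2
      show ‖a - c‖ < x
      linarith
  have hβ := fun β : K => LDB_alt (β := β) hr hlim (Or.inl (hrK (c - β)))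
  have hwp : ∀ β : K, 0 < max r ‖c - β‖ := fun β => lt_max_of_lt_left hr
  have hl := hLim K 𝓕 (fun β => max r ‖c - β‖) fun β => ⟨hwp β, (hβ β).2⟩
  have hpos : ∀ᶠ a in 𝓕, 0 < ‖a - c‖ := hlim.eventually (lt_mem_nhds hr)
  have hflt := hFlt K 𝓕 c (hpos.mono fun a ha h => by
    rw [h, sub_self, norm_zero] at ha
    exact lt_irrefl 0 ha) fun β => (hβ β).1
  have hz : ∀ a : K, RV a (0 : RatFunc K) := by
    intro a
    unfold RV reg ev
    simp
  have hside : ∀ (h : RatFunc K) (C : ℝ) (m : ℤ), 0 < C →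
      (∀ᶠ a in 𝓕, reg a h ∧ ‖ev a h‖ = C * ‖a - c‖ ^ m) → C * r ^ m ≠ 1 ∨ m = 0 := by
    intro h C m hC hev
    by_cases h1 : C * r ^ m = 1
    · right
      obtain ⟨a, ha, ha0⟩ := (hev.and hpos).exists
      have h2 : ‖ev a h * ((a - c) ^ m)⁻¹‖ = C := by
        rw [norm_mul, ha.2, norm_inv, norm_zpow, mul_assoc,
          mul_inv_cancel₀ (zpow_pos ha0 m).ne', mul_one]
      rw [← h2] at h1
      exact LDT_zero hr hrK h1
    · exact Or.inl h1
  have hone : ∀ h : RatFunc K, h = 0 ∨ vw (fun β => max r ‖c - β‖) h ≤ 1 →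
      ∀ᶠ a in 𝓕, RV a h := by
    intro h hh
    by_cases hh0 : h = 0
    · rw [hh0]
      exact Eventually.of_forall hz
    · obtain ⟨C, m, hC, hev⟩ := hflt h hh0
      have hC1 : Tendsto (fun a => C * ‖a - c‖ ^ m) 𝓕 (𝓝 (C * r ^ m)) :=
        (hlim.zpow₀ m (Or.inl hr.ne')).const_mul C
      have hC2 : vw (fun β => max r ‖c - β‖) h = C * r ^ m :=
        tendsto_nhds_unique (hl h hh0).2.1 (hC1.congr' (hev.mono fun a ha => ha.2.symm))
      have hC3 : C * r ^ m ≤ 1 := by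
        rw [← hC2]
        exact hh.resolve_left hh0
      rcases hC3.lt_or_eq with h1 | h1
      · filter_upwards [hev, hC1.eventually (gt_mem_nhds h1)] with a h2 h3
        exact ⟨h2.1, h2.2.le.trans h3.le⟩
      · have hm := (hside h C m hC hev).resolve_left (not_not.2 h1)
        subst hm
        rw [zpow_zero] at h1
        filter_upwards [hev] with a h2
        refine ⟨h2.1, h2.2.le.trans ?_⟩
        rw [zpow_zero]
        exact h1.le
  obtain ⟨T', b, hT', hb⟩ := hLcf K Ω p hp hp1 a0 c0 η H hD 𝓕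
    (vw (fun β => max r ‖c - β‖)) (hle.mono fun a ha => by
      have e : a - a0 = (a - c) + (c - a0) := by ring
      rw [e]
      exact (IsUltrametricDist.norm_add_le_max _ _).trans (max_le ha hc))
    (fun h hh => ⟨(hl h hh).1, (hl h hh).2.1⟩)
    (fun h => by
      by_cases hh : h = 0
      · left
        rw [hh]
        exact Eventually.of_forall hz
      · obtain ⟨C, m, hC, hev⟩ := hflt h hh
        refine LDB_dec hr hlim hC hev ?_
        rcases hside h C m hC hev with h1 | h1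
        · exact Or.inl h1
        · exact Or.inr (Or.inl h1))
    (fun T1 hT1 => ((Filter.eventually_all_finset T1).2 fun h hh => hone h (hT1 h hh)).exists)
  obtain ⟨ρ, r', h1, h2, h3, h4⟩ := (hmem _).1 ((Filter.eventually_all_finset T').2 hT')
  exact ⟨ρ, r', b, h1, h2, h3, fun a ha => hb a (h4 ha)⟩

end PUC
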