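import Pool.Agent.H77.PUC.StmtsE

/-! # PUC, module LMP: limits of places -/

universe u v w

namespace PUC

open Polynomial Filter Topology

section
variable {K : Type u} {E : Type v} [NormedField K] [IsUltrametricDist K] [Field E] [Algebra K E]

/-- the ring of functions that are bounded along an ultrafilter of places -/
def LMP_bd (𝒰 : Ultrafilter (Place K E)) : ValuationSubring E where
  carrier := {f | ∃ κ : ℝ, ∀ᶠ P in (𝒰 : Filter (Place K E)), f ∈ P.ring ∧ ‖P.val f‖ ≤ κ}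
  mul_mem' := by
    rintro f g ⟨κ, hf⟩ ⟨l, hg⟩
    refine ⟨κ * l, ?_⟩
    filter_upwards [hf, hg] with P hf hg
    refine ⟨P.ring.mul_mem _ _ hf.1 hg.1, ?_⟩
    rw [P.val_mul hf.1 hg.1, norm_mul]
    exact mul_le_mul hf.2 hg.2 (norm_nonneg _) ((norm_nonneg _).trans hf.2)
  one_mem' := by
    refine ⟨1, ?_⟩
    filter_upwards with P
    exact ⟨P.ring.one_mem, by simp⟩
  add_mem' := by
    rintro f g ⟨κ, hf⟩ ⟨l, hg⟩
    refine ⟨κ + l, ?_⟩
    filter_upwards [hf, hg] with P hf hg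
    refine ⟨P.ring.add_mem _ _ hf.1 hg.1, ?_⟩
    rw [P.val_add hf.1 hg.1]
    exact (norm_add_le _ _).trans (add_le_add hf.2 hg.2)
  zero_mem' := by
    refine ⟨0, ?_⟩
    filter_upwards with P
    exact ⟨P.ring.zero_mem, by simp⟩
  neg_mem' := by
    rintro f ⟨κ, hf⟩
    refine ⟨κ, ?_⟩
    filter_upwards [hf] with P hf
    refine ⟨P.ring.neg_mem _ hf.1, ?_⟩
    rw [P.val_neg, norm_neg]
    exact hf.2
  mem_or_inv_mem' := by
    intro f
    have h := (ulim 𝒰).mem_or_inv_mem f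
    rcases h with h | h
    · exact Or.inl ⟨1, h⟩
    · exact Or.inr ⟨1, h⟩

theorem LMP_mem (𝒰 : Ultrafilter (Place K E)) (f : E) : f ∈ LMP_bd 𝒰 ↔
    ∃ κ : ℝ, ∀ᶠ P in (𝒰 : Filter (Place K E)), f ∈ P.ring ∧ ‖P.val f‖ ≤ κ := Iff.rfl

theorem LMP_alg (𝒰 : Ultrafilter (Place K E)) (c : K) : algebraMap K E c ∈ LMP_bd 𝒰 := by
  refine ⟨‖c‖, ?_⟩
  filter_upwards with P
  exact ⟨P.alg_mem c, by rw [P.val_algebraMap]⟩

theorem LMP_lim (𝒰 : Ultrafilter (Place K E)) (Q : Place K E) (hQ : Q.ring = LMP_bd 𝒰)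
    {f : E} (hf : f ∈ Q.ring) {ε : ℝ} (hε : 0 < ε) :
    ∀ᶠ P in (𝒰 : Filter (Place K E)), f ∈ P.ring ∧ ‖P.val f - Q.val f‖ ≤ ε := by
  have h1 := Q.sub_val hf
  rw [ValuationSubring.mem_nonunits_iff_or, hQ] at h1
  have hf' := hf
  rw [hQ, LMP_mem] at hf'
  obtain ⟨κ, hκ⟩ := hf'
  set h := f - algebraMap K E (Q.val f) with hh
  have hval : ∀ P : Place K E, f ∈ P.ring → h ∈ P.ring ∧ P.val h = P.val f - Q.val f := by
    intro P hP
    refine ⟨P.ring.toSubring.sub_mem hP (P.alg_mem _), ?_⟩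
    rw [hh, P.val_sub hP (P.alg_mem _), P.val_algebraMap]
  rcases h1 with h1 | h1
  · filter_upwards [hκ] with P hP
    refine ⟨hP.1, ?_⟩
    rw [← (hval P hP.1).2, h1, P.val_zero, norm_zero]
    exact hε.le
  · have h2 : ∀ᶠ P in (𝒰 : Filter (Place K E)), ¬ (h⁻¹ ∈ P.ring ∧ ‖P.val h⁻¹‖ ≤ ε⁻¹) := by
      rw [Ultrafilter.eventually_not]
      intro h3
      exact h1 ⟨ε⁻¹, h3⟩
    filter_upwards [hκ, h2] with P hP h3
    refine ⟨hP.1, ?_⟩
    obtain ⟨h4, h5⟩ := hval P hP.1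
    rw [← h5]
    by_contra h6
    rw [not_le] at h6
    have h7 : P.val h ≠ 0 := by
      intro h8
      rw [h8, norm_zero] at h6
      linarith
    refine h3 ⟨P.inv_mem_of_val h4 h7, ?_⟩
    rw [P.val_inv h4 h7, norm_inv]
    exact inv_anti₀ hε h6.le

end

theorem sLmp (hCHV : SChv.{u}) : SLmp.{u} := by
  intro K E _ _ _ _ _ _ _ _ 𝒰 hz
  have hzz : zz K E ∉ LMP_bd 𝒰 := by
    rintro ⟨κ, hκ⟩
    obtain ⟨P, h1, h2⟩ := (hκ.and (hz (κ + 1))).exists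
    have := h2 h1.1
    linarith [h1.2]
  have htop : LMP_bd 𝒰 ≠ ⊤ := by
    intro h
    rw [h] at hzz
    exact hzz (ValuationSubring.mem_top _)
  refine ⟨⟨LMP_bd 𝒰, LMP_alg 𝒰, hCHV K E _ (LMP_alg 𝒰) htop⟩, hzz, ?_⟩
  intro f hf ε hε
  exact LMP_lim 𝒰 _ rfl hf hε

end PUC
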