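import Pool.Agent.H2.PUC.LMP

/-! # PUC, module LMZ: limits of places at a finite point -/

universe u

namespace PUC

open Polynomial Filter Topology

theorem sLmz (hCHV : SChv.{u}) : SLmz.{u} := by
  intro K E _ _ _ _ _ _ _ _ 𝒰 a hz
  have hza : ∀ P : Place K E, zz K E ∈ P.ring →
      zz K E - algebraMap K E a ∈ P.ring ∧
        P.val (zz K E - algebraMap K E a) = P.val (zz K E) - a := by
    intro P hP
    refine ⟨P.ring.toSubring.sub_mem hP (P.alg_mem _), ?_⟩
    rw [P.val_sub hP (P.alg_mem _), P.val_algebraMap]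
  have h0 : zz K E - algebraMap K E a ≠ 0 := by
    intro h
    have h1 : algebraMap (RatFunc K) E (RatFunc.X - RatFunc.C a) = 0 := by
      rw [map_sub, ← h]
      congr 1
      rw [IsScalarTower.algebraMap_apply K (RatFunc K) E, ← RatFunc.algebraMap_eq_C]
    rw [map_eq_zero] at h1
    have h2 : (algebraMap (Polynomial K) (RatFunc K)) (Polynomial.X - Polynomial.C a) = 0 := by
      rw [map_sub, RatFunc.algebraMap_X, RatFunc.algebraMap_C]
      exact h1
    rw [map_eq_zero_iff _ (RatFunc.algebraMap_injective K)] at h2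
    exact Polynomial.X_sub_C_ne_zero a h2
  have hinv : (zz K E - algebraMap K E a)⁻¹ ∉ LMP_bd 𝒰 := by
    rintro ⟨κ, hκ⟩
    obtain ⟨P, ⟨h1, h2⟩, h3, h4⟩ := (hκ.and (hz (|κ| + 1)⁻¹ (by positivity))).exists
    obtain ⟨h5, h6⟩ := hza P h3
    have h7 := P.val_mul h5 h1
    rw [mul_inv_cancel₀ h0, P.val_one] at h7
    have h8 := congrArg norm h7
    rw [norm_one, norm_mul, h6] at h8
    have h9 : ‖P.val (zz K E) - a‖ * ‖P.val (zz K E - algebraMap K E a)⁻¹‖ ≤
        (|κ| + 1)⁻¹ * |κ| :=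
      mul_le_mul h4 (h2.trans (le_abs_self κ)) (norm_nonneg _) (by positivity)
    have h10 : (|κ| + 1)⁻¹ * |κ| < 1 := by
      rw [inv_mul_lt_iff₀ (by positivity)]
      linarith
    linarith
  have htop : LMP_bd 𝒰 ≠ ⊤ := by
    intro h
    rw [h] at hinv
    exact hinv (ValuationSubring.mem_top _)
  let Q : Place K E := ⟨LMP_bd 𝒰, LMP_alg 𝒰, hCHV K E _ (LMP_alg 𝒰) htop⟩
  have hmem : zz K E ∈ Q.ring := by
    show zz K E ∈ LMP_bd 𝒰
    refine ⟨1 + ‖a‖, ?_⟩
    filter_upwards [hz 1 one_pos] with P hP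
    refine ⟨hP.1, ?_⟩
    have e : P.val (zz K E) = (P.val (zz K E) - a) + a := by ring
    rw [e]
    exact (norm_add_le _ _).trans (add_le_add_left hP.2 _)
  refine ⟨Q, hmem, ?_, ?_⟩
  · apply Q.val_eq
    rw [ValuationSubring.mem_nonunits_iff_or]
    exact Or.inr hinv
  · intro f hf ε hε
    exact LMP_lim 𝒰 Q rfl hf hε

end PUC
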